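import Pool.Agent.Helper66.Kiss.LLEdge

set_option autoImplicit false

/-! # Longitude gaps of feasible states -/

namespace Pool.Agent.Helper98.KT

open Real Set Pool.Agent.Helper66.Kiss

theorem gap_bounds {z φ : Fin 11 → ℝ} (hF : Fe z φ) (hs : Srtd φ) {i j : Fin 11} (hij : i < j)
    (hi : -1 < z i) (hj : -1 < z j) :
    wd (z i) (z j) ≤ φ j - φ i ∧ wd (z i) (z j) ≤ 2 * π - (φ j - φ i) ∧ -1 ≤ RR (z i) (z j) := by
  have hpi := pi_pos
  have h1 := hF.2 i j hij.ne
  have h2 := hF.1 i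
  have h3 := hF.1 j
  have a1 : 0 < √(1 - z i ^ 2) := Real.sqrt_pos.2 (by nlinarith)
  have a2 : 0 < √(1 - z j ^ 2) := Real.sqrt_pos.2 (by nlinarith)
  have hcos : cos (φ j - φ i) ≤ RR (z i) (z j) := by
    unfold RR
    rw [le_div_iff₀ (by positivity)]
    unfold gg at h1
    rw [← cos_neg (φ j - φ i), neg_sub]
    linarith
  have hw : wd (z i) (z j) = arccos (RR (z i) (z j)) := rfl
  have hle := arccos_le_arccos hcos
  have h5 : 0 ≤ φ j - φ i := sub_nonneg.2 (hs.1 hij.le)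
  have h6 : φ j - φ i ≤ 2 * π := by linarith [(hs.2 i).1, (hs.2 j).2]
  have hwpi : wd (z i) (z j) ≤ π := arccos_le_pi _
  refine ⟨?_, ?_, (neg_one_le_cos _).trans hcos⟩
  · rcases le_total (φ j - φ i) π with h | h
    · rw [hw]
      calc _ ≤ _ := hle
        _ = _ := arccos_cos h5 h
    · linarith
  · rcases le_total (φ j - φ i) π with h | h
    · linarith
    · have e : cos (φ j - φ i) = cos (2 * π - (φ j - φ i)) := by rw [cos_two_pi_sub]
      rw [e, arccos_cos (by linarith) (by linarith)] at hle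
      rw [hw]
      exact hle

/-- the two contact angles of the south point at a hop -/
theorem hop_gap {z φ : Fin 11 → ℝ} (hF : Fe z φ) (hs : Srtd φ) (hz : ∀ k, -1 < z k) {m l : Fin 11}
    (hm : 0 < m) (hml : m < l) :
    wd (z 0) (z m) + wd (z 0) (z l) ≤ 2 * π - (φ l - φ m) := by
  have h1 := gap_bounds hF hs hm (hz 0) (hz m)
  have h2 := gap_bounds hF hs (hm.trans hml) (hz 0) (hz l)
  linarith [h1.1, h2.2.1]

/-- lower bounds of gaps add along paths -/
theorem gap_path {z φ : Fin 11 → ℝ} (hF : Fe z φ) (hs : Srtd φ) (hz : ∀ k, -1 < z k)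
    {m p l : Fin 11} (hpl : p < l) {a b : ℝ} (ha : a ≤ φ p - φ m) (hb : b ≤ wd (z p) (z l)) :
    a + b ≤ φ l - φ m := by
  have h1 := gap_bounds hF hs hpl (hz p) (hz l)
  linarith [h1.1]

end Pool.Agent.Helper98.KT
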