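import Pool.Agent.Helper98.KT.SPAng
import Pool.Agent.Helper98.KT.AcTab

set_option autoImplicit false

/-! # Contacts of the south point over a cell of the grid `z = (i - 104) / 128` -/

namespace Pool.Agent.Helper98.KT

open Real Set Pool.Agent.Helper66.Kiss

/-- packed lower bounds of `2 ^ 14 / √(1 - z ^ 2)` -/
def ivTL : ℕ := 0x49e64985492748cc4873481e47cb477a472c46e04696464f460a45c745864546450944ce4494445d442743f243c0438f435f4331430542da42b142894262423d421941f641d541b541964179415c41414127410f40f740e140cb40b740a4409240814071406240554048403c40324028402040184012400c400840044002400040004000400240044008400c40124018402040284032403c40484055406240714081409240a440b740cb40e140f7410f41274141415c4179419641b541d541f64219423d4262428942b142da43054331435f438f43c043f24427445d449444ce45094546458645c7460a464f469646e0472c477a47cb481e487348cc4927498549e64a4a4ab14b1c4b8a4bfc4c714cea4d684de94e6f4efa4f89501e50b7515751fc52a75359541154d15599566857405821590c5a015b015c0c5d255e4a5f7e60c26216637d64f76687682e69ef6bcc6dc8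
/-- packed upper bounds of `2 ^ 14 / √(1 - z ^ 2)` -/
def ivTU : ℕ := 0x49e74986492848cd4874481f47cc477b472d46e146974650460b45c845874547450a44cf4495445e442843f343c1439043604332430642db42b2428a4263423e421a41f741d641b64197417a415d41424128411040f840e240cc40b840a5409340824072406340564049403d40334029402140194013400d400940054003400140004001400340054009400d40134019402140294033403d40494056406340724082409340a540b840cc40e240f8411041284142415d417a419741b641d641f7421a423e4263428a42b242db430643324360439043c143f34428445e449544cf450a4547458745c8460b4650469746e1472d477b47cc481f487448cd4928498649e74a4b4ab24b1d4b8b4bfd4c724ceb4d694dea4e704efb4f8a501f50b8515851fd52a8535a541254d2559a566957415822590d5a025b025c0d5d265e4b5f7f60c36217637e64f86688682f69f06bcd6dc9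

/-- height of the grid index `i` -/
noncomputable def gz (i : ℕ) : ℝ := ((i : ℝ) - 104) / 128

/-- coordinate in units `1 / 4096`, shifted -/
def gn (i : ℕ) : ℕ := Nat.add (Nat.mul 32 i) 768

lemma yz_gn (i : ℕ) : yz (gn i) = gz i := by
  have e : ((gn i : ℕ) : ℝ) = 32 * i + 768 := by
    show ((32 * i + 768 : ℕ) : ℝ) = _
    push_cast; ring
  unfold yz gz
  rw [e]; ring

/-- integer check -/
def ivchk (i : ℕ) : Bool :=
  decide (((ent ivTL i : ℤ)) ^ 2 * (16384 - ((i : ℤ) - 104) ^ 2) ≤ 2 ^ 42) &&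
  decide (2 ^ 42 ≤ ((ent ivTU i : ℤ)) ^ 2 * (16384 - ((i : ℤ) - 104) ^ 2)) &&
  decide (0 < 16384 - ((i : ℤ) - 104) ^ 2)

lemma ivchk_all : ∀ i < 169, ivchk i = true := by decide +kernel

theorem iv_tables {i : ℕ} (hi : i ≤ 168) :
    (ent ivTL i : ℝ) ≤ 2 ^ 14 / √(1 - gz i ^ 2) ∧ 2 ^ 14 / √(1 - gz i ^ 2) ≤ (ent ivTU i : ℝ) := by
  have hc := ivchk_all i (by omega)
  unfold ivchk at hc
  simp only [Bool.and_eq_true, decide_eq_true_eq] at hc
  obtain ⟨⟨c1, c2⟩, c3⟩ := hc
  set L := ent ivTL i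
  set U := ent ivTU i
  have r1 : (L : ℝ) ^ 2 * (16384 - ((i : ℝ) - 104) ^ 2) ≤ 2 ^ 42 := by exact_mod_cast c1
  have r2 : 2 ^ 42 ≤ (U : ℝ) ^ 2 * (16384 - ((i : ℝ) - 104) ^ 2) := by exact_mod_cast c2
  have r3 : 0 < 16384 - ((i : ℝ) - 104) ^ 2 := by exact_mod_cast c3
  have e : 1 - gz i ^ 2 = (16384 - ((i : ℝ) - 104) ^ 2) / 16384 := by unfold gz; ring
  have hp : 0 < 1 - gz i ^ 2 := by rw [e]; positivity
  have hs : 0 < √(1 - gz i ^ 2) := Real.sqrt_pos.2 hp
  have hL : (0 : ℝ) ≤ L := Nat.cast_nonneg _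
  have hU : (0 : ℝ) ≤ U := Nat.cast_nonneg _
  constructor
  · rw [le_div_iff₀ hs]
    refine (le_abs_self _).trans (abs_le_of_sq_le_sq ?_ (by positivity))
    rw [mul_pow, Real.sq_sqrt hp.le, e]
    have : (L : ℝ) ^ 2 * ((16384 - ((i : ℝ) - 104) ^ 2) / 16384) =
      (L : ℝ) ^ 2 * (16384 - ((i : ℝ) - 104) ^ 2) / 16384 := by ring
    rw [this, div_le_iff₀ (by norm_num)]
    calc _ ≤ _ := r1
      _ = _ := by norm_num
  · rw [div_le_iff₀ hs]
    refine (le_abs_self _).trans (abs_le_of_sq_le_sq ?_ (by positivity))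
    rw [mul_pow, Real.sq_sqrt hp.le, e]
    have : (U : ℝ) ^ 2 * ((16384 - ((i : ℝ) - 104) ^ 2) / 16384) =
      (U : ℝ) ^ 2 * (16384 - ((i : ℝ) - 104) ^ 2) / 16384 := by ring
    rw [this, le_div_iff₀ (by norm_num)]
    calc _ = 2 ^ 42 := by norm_num
      _ ≤ _ := r2

/-! ### the angle -/

/-- angle from a lower bound of `2 ^ 14 * RR` -/
def alS1 (r : ℕ) : ℕ := match Nat.ble r 16384 with
  | false => 0
  | true => Nat.succ (acU r)

/-- angle from a lower bound `-r` of `2 ^ 14 * RR` -/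
def alS2 (r : ℕ) : ℕ := match Nat.ble r 16384 with
  | false => 513
  | true => Nat.succ (Nat.sub 512 (acL r))

lemma alS1_sound {r : ℕ} {R : ℝ} (h : (r : ℝ) ≤ 2 ^ 14 * R) :
    (alS1 r = 0 → 1 < R) ∧ ∀ m, alS1 r = m + 1 → arccos R ≤ m * (π / 512) := by
  unfold alS1
  cases hb : Nat.ble r 16384 with
  | false =>
    have hlt : 16384 < r := by
      by_contra hcon
      rw [Nat.ble_eq_true_of_le (not_lt.1 hcon)] at hb
      cases hb
    have h1 : (16384 : ℝ) < (r : ℝ) := by exact_mod_cast hlt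
    refine ⟨fun _ => ?_, fun m hm => ?_⟩
    · have h2 : (16384 : ℝ) < 2 ^ 14 * R := lt_of_lt_of_le h1 h
      linarith
    · exact absurd (show (0 : ℕ) = m + 1 from hm) (by omega)
  | true =>
    have hle := Nat.le_of_ble_eq_true hb
    refine ⟨fun h0 => ?_, fun m hm => ?_⟩
    · exact absurd (show Nat.succ (acU r) = 0 from h0) (Nat.succ_ne_zero _)
    · have hm' : acU r = m := Nat.succ.inj (show Nat.succ (acU r) = Nat.succ m from hm)
      rw [← hm']
      exact acU_sound hle h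

lemma alS2_sound {r : ℕ} {R : ℝ} (h : -(r : ℝ) ≤ 2 ^ 14 * R) :
    (alS2 r = 0 → 1 < R) ∧ ∀ m, alS2 r = m + 1 → arccos R ≤ m * (π / 512) := by
  have hpi := pi_pos
  unfold alS2
  cases hb : Nat.ble r 16384 with
  | false =>
    refine ⟨fun h0 => absurd (show (513 : ℕ) = 0 from h0) (by norm_num), fun m hm => ?_⟩
    have hm' : m = 512 := by
      have : (513 : ℕ) = m + 1 := hm
      omega
    rw [hm']
    have := arccos_le_pi R
    push_cast
    linarith
  | true =>
    have hle := Nat.le_of_ble_eq_true hb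
    refine ⟨fun h0 => ?_, fun m hm => ?_⟩
    · exact absurd (show Nat.succ (Nat.sub 512 (acL r)) = 0 from h0) (Nat.succ_ne_zero _)
    · have hm' : 512 - acL r = m := Nat.succ.inj (show Nat.succ (Nat.sub 512 (acL r)) = Nat.succ m from hm)
      have h1 := acL_sound (R := -R) hle (by linarith)
      rw [arccos_neg] at h1
      rw [← hm']
      have h2 : (512 : ℝ) - acL r ≤ ((512 - acL r : ℕ) : ℝ) := by
        have h4 : 512 ≤ (512 - acL r) + acL r := by omega
        have h3 : ((512 : ℕ) : ℝ) ≤ (((512 - acL r) + acL r : ℕ) : ℝ) := Nat.cast_le.2 h4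
        rw [Nat.cast_add] at h3
        push_cast at h3 ⊢
        linarith
      nlinarith

/-- shallow part of a cell (`40 ≤ i1`): `0` = no contact, `m + 1`: contact angle `≤ m π / 512` -/
def alSh (k1 k2 i1 : ℕ) : ℕ :=
  match rSh k1 k2 (gn i1) (ent ivTL i1) with
  | 0 => 257
  | r + 1 => alS1 (r + 1)

theorem alSh_sound {k1 k2 i1 : ℕ} {t y : ℝ} (ht0 : 0 < t) (ht1 : (k1 : ℝ) / 4096 ≤ t)
    (ht2 : t ≤ (k2 : ℝ) / 4096) (hk : k2 ≤ 900) (hi : 40 ≤ i1) (hi' : i1 ≤ 168)
    (hy : gz i1 ≤ y) (hy' : y ≤ 1 / 2) :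
    (alSh k1 k2 i1 = 0 → 1 < RR (zs t) y) ∧
    ∀ m, alSh k1 k2 i1 = m + 1 → wd (zs t) y ≤ m * (π / 512) := by
  have hgn : 2048 ≤ gn i1 := by
    show 2048 ≤ 32 * i1 + 768
    omega
  have hgn' : gn i1 ≤ 6144 := by
    show 32 * i1 + 768 ≤ 6144
    omega
  have key := rSh_le (i := ent ivTL i1) (y := y) ht0 ht1 ht2 hk hgn hgn' (by rw [yz_gn]; exact hy) hy'
    (by rw [yz_gn]; exact (iv_tables hi').1)
  have hw : wd (zs t) y = arccos (RR (zs t) y) := rfl
  unfold alSh
  cases hr : rSh k1 k2 (gn i1) (ent ivTL i1) with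
  | zero =>
    rw [hr] at key
    refine ⟨fun h => absurd (show (257 : ℕ) = 0 from h) (by norm_num), fun m hm => ?_⟩
    have hm' : m = 256 := by
      have : (257 : ℕ) = m + 1 := hm
      omega
    rw [hw, hm']
    have h0 : 0 ≤ RR (zs t) y := by
      have : (0 : ℝ) ≤ 2 ^ 14 * RR (zs t) y := by simpa using key
      linarith
    have := arccos_le_pi_div_two.2 h0
    push_cast
    linarith
  | succ r =>
    rw [hr] at key
    exact alS1_sound key

/-- deep part of a cell (`i2 ≤ 40`) -/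
def alDp (k1 i1 i2 : ℕ) : ℕ :=
  match rDp k1 (gn i1) (ent ivTL i2) (ent ivTU i1) with
  | (true, r) => alS1 r
  | (false, r) => alS2 r

theorem alDp_sound {k1 i1 i2 : ℕ} {t y : ℝ} (hk0 : 0 < k1) (ht1 : (k1 : ℝ) / 4096 ≤ t)
    (ht2 : t < 1) (hi : i2 ≤ 40) (hy : gz i1 ≤ y) (hy' : y ≤ gz i2) :
    (alDp k1 i1 i2 = 0 → 1 < RR (zs t) y) ∧
    ∀ m, alDp k1 i1 i2 = m + 1 → wd (zs t) y ≤ m * (π / 512) := by
  have h12 : i1 ≤ i2 := by
    have h := hy.trans hy'
    unfold gz at h
    have h3 : (i1 : ℝ) ≤ i2 := by linarith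
    exact_mod_cast h3
  have hgn0 : 0 < gn i1 := by
    show 0 < 32 * i1 + 768
    omega
  have hgn2 : gn i2 ≤ 2048 := by
    show 32 * i2 + 768 ≤ 2048
    omega
  have hi1 : i1 ≤ 168 := by omega
  have hi2 : i2 ≤ 168 := by omega
  have key := rDp_le (i2 := ent ivTL i2) (j1 := ent ivTU i1) (t := t) (y := y) hk0 ht1 ht2 hgn0 hgn2
    (by rw [yz_gn]; exact hy) (by rw [yz_gn]; exact hy')
    (by rw [yz_gn]; exact (iv_tables hi2).1) (by rw [yz_gn]; exact (iv_tables hi1).2)
  obtain ⟨key1, key2⟩ := key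
  have hw : wd (zs t) y = arccos (RR (zs t) y) := rfl
  unfold alDp
  cases hr : rDp k1 (gn i1) (ent ivTL i2) (ent ivTU i1) with
  | mk b r =>
    cases b with
    | true => exact alS1_sound (key1 r hr)
    | false => exact alS2_sound (key2 r hr)

end Pool.Agent.Helper98.KT
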