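import Pool.Agent.Helper98.KT.SPReal

set_option autoImplicit false

/-! # The south point: integer bounds over a cell

Node heights `y = n / 4096 - 1`, south point `t = k / 4096`. Units: `2 ^ 14` for `g`, for `RR` and
for `1 / √(1 - y ^ 2)`. -/

namespace Pool.Agent.Helper98.KT

open Real Set Pool.Agent.Helper66.Kiss

/-- height of a grid value -/
noncomputable def yz (n : ℕ) : ℝ := (n : ℝ) / 4096 - 1

/-- numerator of `g` -/
def gNum (k n : ℕ) : ℕ :=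
  Nat.add (Nat.mul 4096 (Nat.sub 16777216 (Nat.mul 3 (Nat.mul k k))))
    (Nat.mul (Nat.add 16777216 (Nat.mul k k)) n)

/-- lower bound of `2 ^ 14 * gt (k / 4096) (yz n)`, from `i ≤ 2 ^ 14 / √(1 - yz n ^ 2)` -/
def gLo (k n i : ℕ) : ℕ := Nat.div (Nat.mul (gNum k n) i) (Nat.mul 67108864 k)

/-- upper bound -/
def gHi (k n i : ℕ) : ℕ := Nat.succ (gLo k n i)

/-- lower bound of `2 ^ 14 * gt (k / 4096) y` for all `y` -/
def gAll (k : ℕ) : ℕ :=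
  Nat.div (Nat.mul (Nat.sub 7264534528 (Nat.mul 1155 (Nat.mul k k))) (Nat.add 16777216 (Nat.mul k k)))
    (Nat.mul 4194304000 k)

lemma gNum_real {k n : ℕ} (hk : k ≤ 900) :
    (gNum k n : ℝ) = 2 ^ 36 * (2 * (1 - ((k : ℝ) / 4096) ^ 2) + (1 + ((k : ℝ) / 4096) ^ 2) * yz n) := by
  have h1 : 3 * (k * k) ≤ 16777216 := by nlinarith
  have e : gNum k n = 4096 * (16777216 - 3 * (k * k)) + (16777216 + k * k) * n := rfl
  rw [e]
  push_cast [Nat.cast_sub h1]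
  unfold yz
  ring

lemma div_le_real {a b : ℕ} {x : ℝ} (hb : 0 < b) (h : (a : ℝ) ≤ x * b) : ((Nat.div a b : ℕ) : ℝ) ≤ x := by
  have h1 : ((a / b : ℕ) : ℝ) ≤ (a : ℝ) / b := Nat.cast_div_le
  have h2 : (a : ℝ) / b ≤ x := by
    rw [div_le_iff₀ (by exact_mod_cast hb)]; exact h
  exact h1.trans h2

lemma le_succ_div_real {a b : ℕ} {x : ℝ} (hb : 0 < b) (h : x * b ≤ (a : ℝ)) :
    x ≤ ((Nat.succ (Nat.div a b) : ℕ) : ℝ) := by
  have h1 : a < b * (a / b + 1) := Nat.lt_mul_div_succ a hb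
  have h2 : (a : ℝ) < b * ((a / b : ℕ) + 1) := by exact_mod_cast h1
  have h3 : x * b < ((a / b : ℕ) + 1) * b := by rw [mul_comm ((_ : ℝ) + 1)]; linarith
  have h4 := lt_of_mul_lt_mul_right h3 (Nat.cast_nonneg b)
  have e : ((Nat.succ (Nat.div a b) : ℕ) : ℝ) = ((a / b : ℕ) : ℝ) + 1 := by
    show ((a / b + 1 : ℕ) : ℝ) = _
    push_cast; ring
  rw [e]; exact h4.le

lemma gLo_le {k n i : ℕ} (hk0 : 0 < k) (hk : k ≤ 900) (hi : (i : ℝ) ≤ 2 ^ 14 / √(1 - yz n ^ 2))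
    (hn : 0 ≤ 2 * (1 - ((k : ℝ) / 4096) ^ 2) + (1 + ((k : ℝ) / 4096) ^ 2) * yz n) :
    (gLo k n i : ℝ) ≤ 2 ^ 14 * gt (k / 4096) (yz n) := by
  have hkr : (0 : ℝ) < k := by exact_mod_cast hk0
  refine div_le_real (Nat.mul_pos (by norm_num) hk0) ?_
  have e1 : ((Nat.mul (gNum k n) i : ℕ) : ℝ) = (gNum k n : ℝ) * i := Nat.cast_mul _ _
  have e2 : ((Nat.mul 67108864 k : ℕ) : ℝ) = 67108864 * k := by
    show ((67108864 * k : ℕ) : ℝ) = _
    push_cast; ring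
  rw [e1, e2, gNum_real hk]
  set N := 2 * (1 - ((k : ℝ) / 4096) ^ 2) + (1 + ((k : ℝ) / 4096) ^ 2) * yz n with hN
  have e3 : 2 ^ 14 * gt (k / 4096) (yz n) * (67108864 * k) =
      2 ^ 36 * N * (2 ^ 14 / √(1 - yz n ^ 2)) := by
    unfold gt
    rw [← hN]
    rcases eq_or_ne (√(1 - yz n ^ 2)) 0 with h | h
    · rw [h]; simp
    field_simp
    ring
  rw [e3]
  exact mul_le_mul_of_nonneg_left hi (by positivity)

lemma gHi_ge {k n i : ℕ} (hk0 : 0 < k) (hk : k ≤ 900) (hi : 2 ^ 14 / √(1 - yz n ^ 2) ≤ (i : ℝ))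
    (hn : 0 ≤ 2 * (1 - ((k : ℝ) / 4096) ^ 2) + (1 + ((k : ℝ) / 4096) ^ 2) * yz n) :
    2 ^ 14 * gt (k / 4096) (yz n) ≤ (gHi k n i : ℝ) := by
  have hkr : (0 : ℝ) < k := by exact_mod_cast hk0
  refine le_succ_div_real (Nat.mul_pos (by norm_num) hk0) ?_
  have e1 : ((Nat.mul (gNum k n) i : ℕ) : ℝ) = (gNum k n : ℝ) * i := Nat.cast_mul _ _
  have e2 : ((Nat.mul 67108864 k : ℕ) : ℝ) = 67108864 * k := by
    show ((67108864 * k : ℕ) : ℝ) = _
    push_cast; ring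
  rw [e1, e2, gNum_real hk]
  set N := 2 * (1 - ((k : ℝ) / 4096) ^ 2) + (1 + ((k : ℝ) / 4096) ^ 2) * yz n with hN
  have e3 : 2 ^ 14 * gt (k / 4096) (yz n) * (67108864 * k) =
      2 ^ 36 * N * (2 ^ 14 / √(1 - yz n ^ 2)) := by
    unfold gt
    rw [← hN]
    rcases eq_or_ne (√(1 - yz n ^ 2)) 0 with h | h
    · rw [h]; simp
    field_simp
    ring
  rw [e3]
  exact mul_le_mul_of_nonneg_left hi (by positivity)

lemma gAll_le {k : ℕ} (hk0 : 0 < k) (hk : k ≤ 900) {y : ℝ} (hy : -1 < y ∧ y < 1) :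
    (gAll k : ℝ) ≤ 2 ^ 14 * gt (k / 4096) y := by
  have hkr : (0 : ℝ) < k := by exact_mod_cast hk0
  have hkr2 : (k : ℝ) ≤ 900 := by exact_mod_cast hk
  have ht : ((k : ℝ) / 4096) ^ 2 ≤ 1 / 20 := by
    rw [div_pow, div_le_iff₀ (by positivity)]; nlinarith
  have h1 := gt_min (t := (k : ℝ) / 4096) (by positivity) ht hy
  refine le_trans (div_le_real (x := 2 ^ 14 * ((433 / 250 - 231 / 50 * ((k : ℝ) / 4096) ^ 2) *
    (1 + ((k : ℝ) / 4096) ^ 2) / (4 * ((k : ℝ) / 4096)))) (Nat.mul_pos (by norm_num) hk0) ?_)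
    (mul_le_mul_of_nonneg_left h1 (by positivity))
  have h2 : 1155 * (k * k) ≤ 7264534528 := by nlinarith
  have e1 : ((Nat.mul (Nat.sub 7264534528 (Nat.mul 1155 (Nat.mul k k)))
      (Nat.add 16777216 (Nat.mul k k)) : ℕ) : ℝ) =
      (7264534528 - 1155 * ((k : ℝ) * k)) * (16777216 + (k : ℝ) * k) := by
    show (((7264534528 - 1155 * (k * k)) * (16777216 + k * k) : ℕ) : ℝ) = _
    push_cast [Nat.cast_sub h2]; ring
  have e2 : ((Nat.mul 4194304000 k : ℕ) : ℝ) = 4194304000 * k := by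
    show ((4194304000 * k : ℕ) : ℝ) = _
    push_cast; ring
  rw [e1, e2]
  apply le_of_eq
  field_simp
  ring

end Pool.Agent.Helper98.KT
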