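import Pool.Agent.Helper98.KT.SPRat
import Pool.Agent.Helper98.KT.SPInt

set_option autoImplicit false

/-! # The south point: lower bounds of `RR` over a cell, constants with `κ` -/

namespace Pool.Agent.Helper98.KT

open Real Set Pool.Agent.Helper66.Kiss

/-- shallow cells: `r ≤ 2 ^ 14 * RR` -/
def rSh (k1 k2 n1 i : ℕ) : ℕ :=
  match Nat.ble (Nat.mul (Nat.mul k2 k2) (Nat.sub 6144 n1)) (Nat.mul 16777216 (Nat.sub n1 2048)) with
  | true => Nat.div (Nat.mul (Nat.add (Nat.mul 16777216 (Nat.sub n1 2048))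
      (Nat.mul (Nat.mul k2 k2) (Nat.sub 6144 n1))) i) (Nat.mul k2 33554432)
  | false => Nat.div (Nat.mul (Nat.add (Nat.mul 16777216 (Nat.sub n1 2048))
      (Nat.mul (Nat.mul k1 k2) (Nat.sub 6144 n1))) i) (Nat.mul k2 33554432)

lemma cast_mulA (a b : ℕ) : ((Nat.mul a b : ℕ) : ℝ) = (a : ℝ) * b := Nat.cast_mul a b

lemma cast_addA (a b : ℕ) : ((Nat.add a b : ℕ) : ℝ) = (a : ℝ) + b := Nat.cast_add a b

lemma cast_subA {a b : ℕ} (h : b ≤ a) : ((Nat.sub a b : ℕ) : ℝ) = (a : ℝ) - b := Nat.cast_sub h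

theorem rSh_le {k1 k2 n1 i : ℕ} {t y : ℝ} (ht0 : 0 < t) (ht1 : (k1 : ℝ) / 4096 ≤ t)
    (ht2 : t ≤ (k2 : ℝ) / 4096) (hk : k2 ≤ 900) (hn : 2048 ≤ n1) (hn' : n1 ≤ 6144)
    (hy : yz n1 ≤ y) (hy' : y ≤ 1 / 2) (hi : (i : ℝ) ≤ 2 ^ 14 / √(1 - yz n1 ^ 2)) :
    (rSh k1 k2 n1 i : ℝ) ≤ 2 ^ 14 * RR (zs t) y := by
  have hk2r : (k2 : ℝ) ≤ 900 := by exact_mod_cast hk
  have hk2p : (0 : ℝ) < k2 := by
    have : 0 < (k2 : ℝ) / 4096 := lt_of_lt_of_le ht0 ht2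
    linarith
  have hk2p' : 0 < k2 := by exact_mod_cast hk2p
  have ht1' : t < 1 := by
    have : (k2 : ℝ) / 4096 ≤ 900 / 4096 := by
      apply div_le_div_of_nonneg_right hk2r; norm_num
    norm_num at this
    linarith
  have htsq : t ^ 2 ≤ 1 / 20 := by
    have h1 : t ≤ 900 / 4096 := by
      refine ht2.trans ?_
      apply div_le_div_of_nonneg_right hk2r; norm_num
    nlinarith
  have hn1r : (2048 : ℝ) ≤ n1 := by exact_mod_cast hn
  have hn2r : (n1 : ℝ) ≤ 6144 := by exact_mod_cast hn'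
  have hy1 : -(1 / 2) ≤ yz n1 := by unfold yz; linarith
  have hy1' : yz n1 ≤ 1 / 2 := by unfold yz; linarith
  have hsq : 0 < √(1 - yz n1 ^ 2) := Real.sqrt_pos.2 (by nlinarith)
  have hsqy : 0 < √(1 - y ^ 2) := Real.sqrt_pos.2 (by nlinarith)
  -- reduction to `N` at `y1`
  have hmono := RR_zs_mono ht0 htsq hy1 hy hy'
  have hR : RR (zs t) y = Nt t y / √(1 - y ^ 2) / 2 := by
    rw [RR_zs' ht0 ht1', div_div, mul_comm 2]
  have red : ∀ r N0 : ℝ, 0 ≤ N0 → N0 ≤ Nt t (yz n1) → r ≤ N0 * i / 2 → r ≤ 2 ^ 14 * RR (zs t) y := by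
    intro r N0 hN0 hN hr
    rw [hR]
    have h1 : N0 * i / 2 ≤ N0 * (2 ^ 14 / √(1 - yz n1 ^ 2)) / 2 := by
      have := mul_le_mul_of_nonneg_left hi hN0
      linarith
    have h2 : N0 * (2 ^ 14 / √(1 - yz n1 ^ 2)) / 2 = 2 ^ 14 * (N0 / √(1 - yz n1 ^ 2) / 2) := by ring
    have h3 : N0 / √(1 - yz n1 ^ 2) ≤ Nt t (yz n1) / √(1 - yz n1 ^ 2) :=
      div_le_div_of_nonneg_right hN hsq.le
    have h4 : N0 / √(1 - yz n1 ^ 2) / 2 ≤ Nt t y / √(1 - y ^ 2) / 2 := by linarith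
    linarith
  have hi0 : (0 : ℝ) ≤ i := Nat.cast_nonneg i
  have c1 := cast_subA hn
  have c2 := cast_subA hn'
  push_cast at c1 c2
  unfold rSh
  cases hb : Nat.ble (Nat.mul (Nat.mul k2 k2) (Nat.sub 6144 n1))
      (Nat.mul 16777216 (Nat.sub n1 2048)) with
  | true =>
    have hb' : (Nat.mul (Nat.mul k2 k2) (Nat.sub 6144 n1)) ≤ (Nat.mul 16777216 (Nat.sub n1 2048)) :=
      Nat.le_of_ble_eq_true hb
    have hbr : ((Nat.mul (Nat.mul k2 k2) (Nat.sub 6144 n1) : ℕ) : ℝ) ≤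
        ((Nat.mul 16777216 (Nat.sub n1 2048) : ℕ) : ℝ) := Nat.cast_le.2 hb'
    clear hb hb'
    rw [cast_mulA, cast_mulA, cast_mulA, c1, c2] at hbr
    push_cast at hbr
    refine red _ (Nt ((k2 : ℝ) / 4096) (yz n1)) ?_ ?_ ?_
    · unfold Nt
      have a1 : 0 ≤ (1 / 2 + yz n1) / ((k2 : ℝ) / 4096) := div_nonneg (by linarith) (by positivity)
      have a2 : 0 ≤ (k2 : ℝ) / 4096 * (1 / 2 - yz n1) := mul_nonneg (by positivity) (by linarith)
      linarith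
    · refine Nt_low' ht0 ht2 ht1' hy1' le_rfl ?_
      unfold yz
      rw [div_pow]
      have : (k2 : ℝ) * k2 * (6144 - n1) / (16777216 * 4096) ≤ (n1 - 2048) / 4096 := by
        rw [div_le_div_iff₀ (by positivity) (by positivity)]; nlinarith
      calc (k2 : ℝ) ^ 2 / 4096 ^ 2 * (1 / 2 - (n1 / 4096 - 1)) =
          (k2 : ℝ) * k2 * (6144 - n1) / (16777216 * 4096) := by ring
        _ ≤ _ := this
        _ = _ := by ring
    · refine div_le_real (Nat.mul_pos hk2p' (by norm_num)) ?_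
      rw [cast_mulA, cast_addA, cast_mulA, cast_mulA, cast_mulA, cast_mulA, c1, c2]
      push_cast
      apply le_of_eq
      unfold Nt yz
      field_simp
      ring
  | false =>
    clear hb
    refine red _ ((1 / 2 + yz n1) / ((k2 : ℝ) / 4096) + (k1 : ℝ) / 4096 * (1 / 2 - yz n1)) ?_ ?_ ?_
    · have a0 : 0 ≤ 1 / 2 + yz n1 := by linarith
      have a00 : 0 ≤ 1 / 2 - yz n1 := by linarith
      have a1 : 0 ≤ (1 / 2 + yz n1) / ((k2 : ℝ) / 4096) := div_nonneg a0 (by positivity)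
      have a3 : (0 : ℝ) ≤ (k1 : ℝ) / 4096 := div_nonneg (Nat.cast_nonneg k1) (by norm_num)
      exact add_nonneg a1 (mul_nonneg a3 a00)
    · exact Nt_low (div_nonneg (Nat.cast_nonneg k1) (by norm_num)) ht1 ht0 ht2 ht1' hy1 hy1' le_rfl
    · refine div_le_real (Nat.mul_pos hk2p' (by norm_num)) ?_
      rw [cast_mulA, cast_addA, cast_mulA, cast_mulA, cast_mulA, cast_mulA, c1, c2]
      push_cast
      apply le_of_eq
      unfold yz
      field_simp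
      ring

/-- deep cells: `(true, r)` means `r ≤ 2 ^ 14 * RR`, `(false, r)` means `-r ≤ 2 ^ 14 * RR`;
`i2 ≤ 2 ^ 14 / √(1 - y2 ^ 2)`, `2 ^ 14 / √(1 - y1 ^ 2) ≤ j1` -/
def rDp (k1 n1 i2 j1 : ℕ) : Bool × ℕ :=
  match Nat.ble (Nat.mul 16777216 (Nat.sub 2048 n1)) (Nat.mul (Nat.mul k1 k1) (Nat.sub 6144 n1)) with
  | true => (true, Nat.div (Nat.mul (Nat.sub (Nat.mul (Nat.mul k1 k1) (Nat.sub 6144 n1))
      (Nat.mul 16777216 (Nat.sub 2048 n1))) i2) (Nat.mul k1 33554432))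
  | false => (false, Nat.succ (Nat.div (Nat.mul (Nat.sub (Nat.mul 16777216 (Nat.sub 2048 n1))
      (Nat.mul (Nat.mul k1 k1) (Nat.sub 6144 n1))) j1) (Nat.mul k1 33554432)))

theorem rDp_le {k1 n1 n2 i2 j1 : ℕ} {t y : ℝ} (hk0 : 0 < k1) (ht1 : (k1 : ℝ) / 4096 ≤ t)
    (ht2 : t < 1) (hn0 : 0 < n1) (hn2 : n2 ≤ 2048)
    (hy : yz n1 ≤ y) (hy' : y ≤ yz n2) (hi : (i2 : ℝ) ≤ 2 ^ 14 / √(1 - yz n2 ^ 2))
    (hj : 2 ^ 14 / √(1 - yz n1 ^ 2) ≤ (j1 : ℝ)) :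
    (∀ r, rDp k1 n1 i2 j1 = (true, r) → (r : ℝ) ≤ 2 ^ 14 * RR (zs t) y) ∧
    (∀ r, rDp k1 n1 i2 j1 = (false, r) → -(r : ℝ) ≤ 2 ^ 14 * RR (zs t) y) := by
  have hk1p : (0 : ℝ) < k1 := by exact_mod_cast hk0
  have hn0r : (0 : ℝ) < n1 := by exact_mod_cast hn0
  have hn2r : (n2 : ℝ) ≤ 2048 := by exact_mod_cast hn2
  have h12 : n1 ≤ n2 := by
    have : yz n1 ≤ yz n2 := hy.trans hy'
    unfold yz at this
    have h3 : (n1 : ℝ) ≤ n2 := by linarith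
    exact_mod_cast h3
  have hn1 : n1 ≤ 2048 := h12.trans hn2
  have hn1r : (n1 : ℝ) ≤ 2048 := by exact_mod_cast hn1
  have hy1 : -1 < yz n1 := by unfold yz; linarith
  have hy2 : yz n2 ≤ -(1 / 2) := by unfold yz; linarith
  have ht0 : 0 < t := lt_of_lt_of_le (by positivity) ht1
  have hsq1 : 0 < √(1 - yz n1 ^ 2) := Real.sqrt_pos.2 (by nlinarith)
  have hsq2 : 0 < √(1 - yz n2 ^ 2) := Real.sqrt_pos.2 (by nlinarith)
  have hsqy : 0 < √(1 - y ^ 2) := Real.sqrt_pos.2 (by nlinarith)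
  have s1 : √(1 - yz n1 ^ 2) ≤ √(1 - y ^ 2) := Real.sqrt_le_sqrt (by nlinarith)
  have s2 : √(1 - y ^ 2) ≤ √(1 - yz n2 ^ 2) := Real.sqrt_le_sqrt (by nlinarith)
  have hN : Nt ((k1 : ℝ) / 4096) (yz n1) ≤ Nt t y :=
    Nt_low_deep (by positivity) ht1 ht2 (by linarith) hy
  have hR : RR (zs t) y = Nt t y / √(1 - y ^ 2) / 2 := by
    rw [RR_zs' ht0 ht2, div_div, mul_comm 2]
  have c1 := cast_subA hn1
  have c2 := cast_subA (show n1 ≤ 6144 by omega)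
  push_cast at c1 c2
  have eN : Nt ((k1 : ℝ) / 4096) (yz n1) * (16777216 * k1) =
      (k1 : ℝ) * k1 * (6144 - n1) - 16777216 * (2048 - n1) := by
    unfold Nt yz; field_simp; ring
  unfold rDp
  cases hb : Nat.ble (Nat.mul 16777216 (Nat.sub 2048 n1))
      (Nat.mul (Nat.mul k1 k1) (Nat.sub 6144 n1)) with
  | true =>
    have hb' := Nat.le_of_ble_eq_true hb
    have c3 := cast_subA hb'
    clear hb hb'
    rw [cast_mulA, cast_mulA, cast_mulA, c1, c2] at c3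
    push_cast at c3
    refine ⟨fun r hr => ?_, fun r hr => by simp at hr⟩
    have hr' := (Prod.mk.inj hr).2
    rw [← hr']
    have hN0 : 0 ≤ Nt ((k1 : ℝ) / 4096) (yz n1) := by
      have h1 : (0 : ℝ) ≤ ((Nat.sub (Nat.mul (Nat.mul k1 k1) (Nat.sub 6144 n1))
        (Nat.mul 16777216 (Nat.sub 2048 n1)) : ℕ) : ℝ) := Nat.cast_nonneg _
      rw [c3, ← eN] at h1
      exact nonneg_of_mul_nonneg_left h1 (by positivity)
    refine le_trans (b := 2 ^ 14 / √(1 - yz n2 ^ 2) * Nt ((k1 : ℝ) / 4096) (yz n1) / 2) ?_ ?_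
    · refine div_le_real (Nat.mul_pos hk0 (by norm_num)) ?_
      rw [cast_mulA, c3, ← eN, cast_mulA]
      push_cast
      have := mul_le_mul_of_nonneg_left hi (mul_nonneg hN0 (by positivity : (0:ℝ) ≤ 16777216 * k1))
      calc _ ≤ _ := this
        _ = _ := by ring
    · rw [hR]
      have h1 : Nt ((k1 : ℝ) / 4096) (yz n1) / √(1 - yz n2 ^ 2) ≤ Nt t y / √(1 - y ^ 2) :=
        div_le_div₀ (hN0.trans hN) hN hsqy s2
      calc _ = 2 ^ 14 * (Nt ((k1 : ℝ) / 4096) (yz n1) / √(1 - yz n2 ^ 2) / 2) := by ring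
        _ ≤ 2 ^ 14 * (Nt t y / √(1 - y ^ 2) / 2) := by
          apply mul_le_mul_of_nonneg_left _ (by positivity); linarith
  | false =>
    have hb' : Nat.mul (Nat.mul k1 k1) (Nat.sub 6144 n1) ≤ Nat.mul 16777216 (Nat.sub 2048 n1) := by
      by_contra hcon
      rw [Nat.ble_eq_true_of_le (not_le.1 hcon).le] at hb
      cases hb
    have c3 := cast_subA hb'
    clear hb hb'
    rw [cast_mulA, cast_mulA, cast_mulA, c1, c2] at c3
    push_cast at c3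
    refine ⟨fun r hr => by simp at hr, fun r hr => ?_⟩
    have hr' := (Prod.mk.inj hr).2
    rw [← hr']
    have hN0 : 0 ≤ -Nt ((k1 : ℝ) / 4096) (yz n1) := by
      have h1 : (0 : ℝ) ≤ ((Nat.sub (Nat.mul 16777216 (Nat.sub 2048 n1))
        (Nat.mul (Nat.mul k1 k1) (Nat.sub 6144 n1)) : ℕ) : ℝ) := Nat.cast_nonneg _
      rw [c3] at h1
      have h2 : 0 ≤ -Nt ((k1 : ℝ) / 4096) (yz n1) * (16777216 * k1) := by
        rw [neg_mul, eN]; linarith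
      exact nonneg_of_mul_nonneg_left h2 (by positivity)
    have key : -Nt ((k1 : ℝ) / 4096) (yz n1) * (2 ^ 14 / √(1 - yz n1 ^ 2)) / 2 ≤
        ((Nat.succ (Nat.div (Nat.mul (Nat.sub (Nat.mul 16777216 (Nat.sub 2048 n1))
      (Nat.mul (Nat.mul k1 k1) (Nat.sub 6144 n1))) j1) (Nat.mul k1 33554432)) : ℕ) : ℝ) := by
      refine le_succ_div_real (Nat.mul_pos hk0 (by norm_num)) ?_
      rw [cast_mulA, cast_mulA, c3]
      push_cast
      have e5 : 16777216 * (2048 - (n1 : ℝ)) - k1 * k1 * (6144 - n1) =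
          -Nt ((k1 : ℝ) / 4096) (yz n1) * (16777216 * k1) := by rw [neg_mul, eN]; ring
      rw [e5]
      have := mul_le_mul_of_nonneg_left hj (mul_nonneg hN0 (by positivity : (0:ℝ) ≤ 16777216 * k1))
      calc _ = -Nt ((k1 : ℝ) / 4096) (yz n1) * (16777216 * k1) * (2 ^ 14 / √(1 - yz n1 ^ 2)) := by ring
        _ ≤ _ := this
    have h6 : -(2 ^ 14 * RR (zs t) y) ≤
        -Nt ((k1 : ℝ) / 4096) (yz n1) * (2 ^ 14 / √(1 - yz n1 ^ 2)) / 2 := by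
      rw [hR]
      have h7 : -Nt t y / √(1 - y ^ 2) ≤ -Nt ((k1 : ℝ) / 4096) (yz n1) / √(1 - yz n1 ^ 2) := by
        by_cases hs : 0 ≤ -Nt t y
        · exact div_le_div₀ hN0 (by linarith) hsq1 s1
        · push Not at hs
          have a1 : -Nt t y / √(1 - y ^ 2) ≤ 0 := div_nonpos_of_nonpos_of_nonneg hs.le hsqy.le
          have a2 : 0 ≤ -Nt ((k1 : ℝ) / 4096) (yz n1) / √(1 - yz n1 ^ 2) := div_nonneg hN0 hsq1.le
          linarith
      have e6 : -(2 ^ 14 * (Nt t y / √(1 - y ^ 2) / 2)) = 2 ^ 14 * (-Nt t y / √(1 - y ^ 2) / 2) := by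
        rw [neg_div]; ring
      rw [e6]
      calc 2 ^ 14 * (-Nt t y / √(1 - y ^ 2) / 2) ≤
          2 ^ 14 * (-Nt ((k1 : ℝ) / 4096) (yz n1) / √(1 - yz n1 ^ 2) / 2) := by
            apply mul_le_mul_of_nonneg_left _ (by positivity); linarith
        _ = _ := by ring
    linarith

end Pool.Agent.Helper98.KT
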