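import Pool.Agent.Helper98.KT.HopPk
import Pool.Agent.Helper98.KT.SPAng

set_option autoImplicit false

/-! # The check of one contact of the south point over a cell -/

namespace Pool.Agent.Helper98.KT

open Real Set Pool.Agent.Helper66.Kiss

/-- `κ / cos (tilt) ≤ kUof * u` for `κ = K * u` -/
def kUof (K k2 : ℕ) : ℕ :=
  Nat.succ (Nat.div (Nat.mul K (Nat.add 16777216 (Nat.mul k2 k2))) (Nat.sub 16777216 (Nat.mul k2 k2)))

/-- `2 ^ 10 * K * t / (1 - t ^ 2) ≤ kTof` -/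
def kTof (K k2 : ℕ) : ℕ :=
  Nat.succ (Nat.div (Nat.mul (Nat.mul K k2) 4194304) (Nat.sub 16777216 (Nat.mul k2 k2)))

/-- `2 ^ 14 * K * t / (1 - t ^ 2) / √(1 - y ^ 2) ≤ ckap`, from `2 ^ 14 / √(1 - y ^ 2) ≤ j` -/
def ckap (KT j : ℕ) : ℕ := Nat.succ (Nat.div (Nat.mul KT j) 1024)

lemma kUof_ge {K k2 : ℕ} {t u κ : ℝ} (hu : 0 < u) (hκ : κ = K * u) (ht0 : 0 < t)
    (ht : t ≤ (k2 : ℝ) / 4096) (hk : k2 ≤ 900) :
    (K : ℝ) * u ≤ κ / (-zs t) ∧ κ / (-zs t) ≤ kUof K k2 * u := by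
  have hk2r : (k2 : ℝ) ≤ 900 := by exact_mod_cast hk
  have ht1 : t < 1 := by
    have : (k2 : ℝ) / 4096 ≤ 900 / 4096 := div_le_div_of_nonneg_right hk2r (by norm_num)
    norm_num at this
    linarith
  have hK : (0 : ℝ) ≤ K := Nat.cast_nonneg K
  have hk2 : k2 * k2 < 16777216 := by nlinarith
  rw [k_zs ht0 ht1, hκ]
  have h1 : 0 < 1 - t ^ 2 := by nlinarith
  have h2 : (1 : ℝ) ≤ (1 + t ^ 2) / (1 - t ^ 2) := by rw [le_div_iff₀ h1]; nlinarith
  constructor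
  · have : 0 ≤ (K : ℝ) * u := by positivity
    nlinarith
  · have h3 : (K : ℝ) * ((1 + t ^ 2) / (1 - t ^ 2)) ≤ kUof K k2 := by
      refine le_succ_div_real (Nat.sub_pos_of_lt hk2) ?_
      have e1 : ((Nat.sub 16777216 (Nat.mul k2 k2) : ℕ) : ℝ) = 16777216 - (k2 : ℝ) * k2 := by
        rw [cast_subA (show Nat.mul k2 k2 ≤ 16777216 from hk2.le), cast_mulA]; push_cast; ring
      have e2 : ((Nat.mul K (Nat.add 16777216 (Nat.mul k2 k2)) : ℕ) : ℝ) =
          K * (16777216 + (k2 : ℝ) * k2) := by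
        rw [cast_mulA, cast_addA, cast_mulA]; push_cast; ring
      rw [e1, e2]
      have h4 : 0 < 16777216 - (k2 : ℝ) * k2 := by nlinarith
      have h5 : (1 + t ^ 2) / (1 - t ^ 2) * (16777216 - (k2 : ℝ) * k2) ≤ 16777216 + (k2 : ℝ) * k2 := by
        rw [div_mul_eq_mul_div, div_le_iff₀ h1]
        have h6 : t ^ 2 * 16777216 ≤ (k2 : ℝ) * k2 := by
          have : t * 4096 ≤ k2 := by rw [le_div_iff₀ (by norm_num)] at ht; exact ht
          nlinarith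
        nlinarith
      calc (K : ℝ) * ((1 + t ^ 2) / (1 - t ^ 2)) * (16777216 - (k2 : ℝ) * k2) =
          K * ((1 + t ^ 2) / (1 - t ^ 2) * (16777216 - (k2 : ℝ) * k2)) := by ring
        _ ≤ _ := mul_le_mul_of_nonneg_left h5 hK
    calc (K : ℝ) * u * ((1 + t ^ 2) / (1 - t ^ 2)) = K * ((1 + t ^ 2) / (1 - t ^ 2)) * u := by ring
      _ ≤ _ := mul_le_mul_of_nonneg_right h3 hu.le

lemma ckap_ge {K k2 j : ℕ} {t u κ y : ℝ} (hu : 0 < u) (hκ : κ = K * u) (ht0 : 0 < t)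
    (ht : t ≤ (k2 : ℝ) / 4096) (hk : k2 ≤ 900) (hj : 2 ^ 14 / √(1 - y ^ 2) ≤ (j : ℝ)) :
    2 ^ 14 * (κ / (-zs t) * (√(1 - zs t ^ 2) / (2 * √(1 - y ^ 2)))) ≤ ckap (kTof K k2) j * u := by
  have hk2r : (k2 : ℝ) ≤ 900 := by exact_mod_cast hk
  have ht1 : t < 1 := by
    have : (k2 : ℝ) / 4096 ≤ 900 / 4096 := div_le_div_of_nonneg_right hk2r (by norm_num)
    norm_num at this
    linarith
  have hK : (0 : ℝ) ≤ K := Nat.cast_nonneg K
  have hk2 : k2 * k2 < 16777216 := by nlinarith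
  rw [ks_zs ht0 ht1, hκ]
  have h1 : 0 < 1 - t ^ 2 := by nlinarith
  have h3 : (K : ℝ) * (t / (1 - t ^ 2)) * 1024 ≤ kTof K k2 := by
    refine le_succ_div_real (Nat.sub_pos_of_lt hk2) ?_
    have e1 : ((Nat.sub 16777216 (Nat.mul k2 k2) : ℕ) : ℝ) = 16777216 - (k2 : ℝ) * k2 := by
      rw [cast_subA (show Nat.mul k2 k2 ≤ 16777216 from hk2.le), cast_mulA]; push_cast; ring
    have e2 : ((Nat.mul (Nat.mul K k2) 4194304 : ℕ) : ℝ) = K * (4194304 * (k2 : ℝ)) := by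
      rw [cast_mulA, cast_mulA]; push_cast; ring
    rw [e1, e2]
    have h4 : 0 < 16777216 - (k2 : ℝ) * k2 := by nlinarith
    have h5 : t / (1 - t ^ 2) * 1024 * (16777216 - (k2 : ℝ) * k2) ≤ 4194304 * (k2 : ℝ) := by
      have h7 : t * 4096 ≤ k2 := by rw [le_div_iff₀ (by norm_num)] at ht; exact ht
      have h6 : t ^ 2 * 16777216 ≤ (k2 : ℝ) * k2 := by nlinarith
      have h8 : t / (1 - t ^ 2) * (16777216 - (k2 : ℝ) * k2) ≤ 16777216 * t := by
        rw [div_mul_eq_mul_div, div_le_iff₀ h1]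
        nlinarith
      nlinarith
    calc (K : ℝ) * (t / (1 - t ^ 2)) * 1024 * (16777216 - (k2 : ℝ) * k2) =
        K * (t / (1 - t ^ 2) * 1024 * (16777216 - (k2 : ℝ) * k2)) := by ring
      _ ≤ _ := mul_le_mul_of_nonneg_left h5 hK
  have h9 : 2 ^ 14 * ((K : ℝ) * (t / (1 - t ^ 2)) / √(1 - y ^ 2)) ≤ ckap (kTof K k2) j := by
    refine le_succ_div_real (by norm_num) ?_
    rw [cast_mulA]
    push_cast
    have h10 : 0 ≤ (K : ℝ) * (t / (1 - t ^ 2)) * 1024 := by positivity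
    have h11 : 0 ≤ 2 ^ 14 / √(1 - y ^ 2) := by positivity
    calc 2 ^ 14 * ((K : ℝ) * (t / (1 - t ^ 2)) / √(1 - y ^ 2)) * 1024 =
        (K : ℝ) * (t / (1 - t ^ 2)) * 1024 * (2 ^ 14 / √(1 - y ^ 2)) := by ring
      _ ≤ (kTof K k2 : ℝ) * j := mul_le_mul h3 hj h11 (h10.trans h3)
  calc 2 ^ 14 * ((K : ℝ) * u * (t / (1 - t ^ 2)) / √(1 - y ^ 2)) =
      2 ^ 14 * ((K : ℝ) * (t / (1 - t ^ 2)) / √(1 - y ^ 2)) * u := by ring
    _ ≤ _ := mul_le_mul_of_nonneg_right h9 hu.le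

/-- the check of one contact: `g1` lower, `g2` upper bound of `2 ^ 14 * g`, `j` upper bound of
`2 ^ 14 / √(1 - y ^ 2)`, velocity `(vp - vn) u`, slope `l`, constant `mp - mn`; `P = hopP l K`,
`N = hopN ku`, `KT = kTof K k2`, `ML = 403 l + 20 ku` -/
def hopN1 (P N ML KT g1 g2 j vp vn mp mn J : ℕ) : Bool :=
  match Nat.ble (Nat.mul vp g1) 35184372088831 with
  | false => false
  | true => match Nat.ble (Nat.add (Nat.mul vn g2) (Nat.add (ckap KT j)
      (Nat.add ML (Nat.mul 20 mn)))) 35184372088831 with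
    | false => false
    | true => match Nat.ble (Nat.lor mp mn) 16777215 with
      | false => false
      | true => match Nat.ble J 32 with
        | false => false
        | true => hopChk P N mp mn (Nat.mul vp g1)
            (Nat.add (Nat.mul vn g2) (Nat.add (ckap KT j) (Nat.add ML (Nat.mul 20 mn)))) J

theorem hopN1_sound {K k2 l ku g1 g2 j vp vn mp mn J : ℕ} {t y u κ v : ℝ}
    (hu : 0 < u) (hκ : κ = K * u) (hv : v = ((vp : ℝ) - vn) * u) (ht0 : 0 < t)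
    (ht : t ≤ (k2 : ℝ) / 4096) (hk : k2 ≤ 900) (hy : -1 < y ∧ y < 1)
    (hj : 2 ^ 14 / √(1 - y ^ 2) ≤ (j : ℝ)) (hg1 : (g1 : ℝ) ≤ 2 ^ 14 * gt t y)
    (hg2 : vn = 0 ∨ 2 ^ 14 * gt t y ≤ (g2 : ℝ))
    (hl : l < 2 ^ 24) (hK : K < 2 ^ 24) (hku : ku < 2 ^ 24) (hkue : ku = kUof K k2)
    (h : hopN1 (hopP l K) (hopN ku) (Nat.add (Nat.mul 403 l) (Nat.mul 20 ku)) (kTof K k2) g1 g2 j vp
      vn mp mn J = true) (hα : wd (zs t) y ≤ J * (π / 32)) :
    (RR (zs t) y ^ 2 < 1 → rate (zs t) y (-κ * (1 - zs t ^ 2)) (v * (1 - y ^ 2)) ≤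
      l * u * (wd (zs t) y / (π / 32)) + ((mp : ℝ) - mn) * u) ∧
      (RR (zs t) y ^ 2 = 1 → nr (zs t) y (-κ * (1 - zs t ^ 2)) (v * (1 - y ^ 2)) < 0) := by
  have hk2r : (k2 : ℝ) ≤ 900 := by exact_mod_cast hk
  have ht1 : t < 1 := by
    have : (k2 : ℝ) / 4096 ≤ 900 / 4096 := div_le_div_of_nonneg_right hk2r (by norm_num)
    norm_num at this
    linarith
  set cn := Nat.add (Nat.mul vn g2) (Nat.add (ckap (kTof K k2) j)
      (Nat.add (Nat.add (Nat.mul 403 l) (Nat.mul 20 ku)) (Nat.mul 20 mn))) with hcn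
  have hh : Nat.mul vp g1 < 2 ^ 45 ∧ cn < 2 ^ 45 ∧ mp < 2 ^ 24 ∧ mn < 2 ^ 24 ∧ J ≤ 32 ∧
      hopChk (hopP l K) (hopN ku) mp mn (Nat.mul vp g1) cn J = true := by
    unfold hopN1 at h
    rw [← hcn] at h
    cases b1 : Nat.ble (Nat.mul vp g1) 35184372088831 with
    | false => rw [b1] at h; cases h
    | true =>
      rw [b1] at h
      cases b2 : Nat.ble cn 35184372088831 with
      | false => rw [b2] at h; cases h
      | true =>
        rw [b2] at h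
        cases b3 : Nat.ble (Nat.lor mp mn) 16777215 with
        | false => rw [b3] at h; cases h
        | true =>
          rw [b3] at h
          cases b4 : Nat.ble J 32 with
          | false => rw [b4] at h; cases h
          | true =>
            rw [b4] at h
            have c1 := Nat.le_of_ble_eq_true b1
            have c2 := Nat.le_of_ble_eq_true b2
            have c3 := Nat.le_of_ble_eq_true b3
            have c5 : mp ≤ Nat.lor mp mn := Nat.left_le_or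
            have c6 : mn ≤ Nat.lor mp mn := Nat.right_le_or
            refine ⟨Nat.lt_of_le_of_lt c1 (by norm_num), Nat.lt_of_le_of_lt c2 (by norm_num),
              Nat.lt_of_le_of_lt (c5.trans c3) (by norm_num),
              Nat.lt_of_le_of_lt (c6.trans c3) (by norm_num), Nat.le_of_ble_eq_true b4, h⟩
  clear h
  obtain ⟨h1, h2, h3, h4, h5, h6⟩ := hh
  obtain ⟨k1, k2'⟩ := kUof_ge hu hκ ht0 ht hk
  have hku0 : 0 < ku := by rw [hkue]; exact Nat.succ_pos _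
  rw [← hkue] at k2'
  refine hopChk_bound (κ := κ) (v := v) (u := u) (x := zs t) (y := y) hu (zs_mem ht0 ht1) hy hl hK hku
    hku0 h3 h4 h1 h2 h5 h6 k1 k2' ?_ hα
  clear h6
  have hc := ckap_ge hu hκ ht0 ht hk hj
  rw [g_zs ht0 ht1]
  have e1 : ((Nat.mul vp g1 : ℕ) : ℝ) = vp * g1 := cast_mulA _ _
  have e2 : (cn : ℝ) = vn * g2 + (ckap (kTof K k2) j + (403 * l + 20 * ku + 20 * mn)) := by
    rw [hcn, cast_addA, cast_addA, cast_addA, cast_addA, cast_mulA, cast_mulA, cast_mulA, cast_mulA]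
    push_cast
    ring
  have e3 : (hopMarg l ku mn : ℝ) = 403 * l + 20 * (ku + mn) := by
    show ((403 * l + 20 * (ku + mn) : ℕ) : ℝ) = _
    push_cast; ring
  rw [e1, e2, e3, hv]
  have q1 : (vp : ℝ) * g1 ≤ vp * (2 ^ 14 * gt t y) := mul_le_mul_of_nonneg_left hg1 (Nat.cast_nonneg _)
  have q2 : (vn : ℝ) * (2 ^ 14 * gt t y) ≤ vn * g2 := by
    rcases hg2 with h0 | h0
    · rw [h0]; simp
    · exact mul_le_mul_of_nonneg_left h0 (Nat.cast_nonneg _)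
  have q3 : ((vp : ℝ) * g1 - vn * g2) * u ≤ (2 ^ 14 * gt t y) * (((vp : ℝ) - vn) * u) := by
    have : (vp : ℝ) * g1 - vn * g2 ≤ (2 ^ 14 * gt t y) * ((vp : ℝ) - vn) := by linarith
    calc ((vp : ℝ) * g1 - vn * g2) * u ≤ (2 ^ 14 * gt t y) * ((vp : ℝ) - vn) * u :=
          mul_le_mul_of_nonneg_right this hu.le
      _ = _ := by ring
  have q4 : ((vp : ℝ) * g1 - (vn * g2 + (ckap (kTof K k2) j + (403 * l + 20 * ku + 20 * mn))) +
      (403 * l + 20 * (ku + mn))) * u = ((vp : ℝ) * g1 - vn * g2) * u - ckap (kTof K k2) j * u := by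
    ring
  rw [q4]
  have q5 : 2 ^ 14 * (gt t y * (((vp : ℝ) - vn) * u) -
      κ / -zs t * (√(1 - zs t ^ 2) / (2 * √(1 - y ^ 2)))) =
      (2 ^ 14 * gt t y) * (((vp : ℝ) - vn) * u) -
      2 ^ 14 * (κ / -zs t * (√(1 - zs t ^ 2) / (2 * √(1 - y ^ 2)))) := by ring
  rw [q5]
  linarith

end Pool.Agent.Helper98.KT
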