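import Pool.Agent.Helper66.Kiss.LeafA
import Pool.Agent.Helper98.KT.HopNode
import Pool.Agent.Helper98.KT.HopCell

set_option autoImplicit false

/-! # Edge bounds (`EBp`) of the contacts of the south point over a cell -/

namespace Pool.Agent.Helper98.KT

open Real Set Pool.Agent.Helper66.Kiss

/-- a larger velocity gives a smaller rate -/
lemma hop_mono {t y κ v v' : ℝ} (ht0 : 0 < t) (ht1 : t < 1) (hy : -1 < y ∧ y < 1) (hv : v ≤ v')
    (hg : 0 ≤ gt t y) : nr (zs t) y (-κ * (1 - zs t ^ 2)) (v' * (1 - y ^ 2)) ≤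
      nr (zs t) y (-κ * (1 - zs t ^ 2)) (v * (1 - y ^ 2)) := by
  rw [nr_hop (zs_mem ht0 ht1) hy, nr_hop (zs_mem ht0 ht1) hy, g_zs ht0 ht1]
  have h1 : gt t y * v ≤ gt t y * v' := mul_le_mul_of_nonneg_left hv hg
  have h2 : 0 ≤ √(1 - zs t ^ 2) * √(1 - y ^ 2) := by positivity
  nlinarith

lemma gt_nonneg {t y : ℝ} (ht0 : 0 < t) (ht : t ^ 2 ≤ 1 / 20) (hy : -1 < y ∧ y < 1) :
    0 ≤ gt t y := by
  refine le_trans ?_ (gt_min ht0 ht hy)
  have : 0 ≤ 433 / 250 - 231 / 50 * t ^ 2 := by linarith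
  positivity

/-- upper bound of `g` -/
def gvS (vn k1 n2 j : ℕ) : ℕ := match vn with
  | 0 => 0
  | _ + 1 => gHi k1 n2 j

lemma gHi_cell {k1 n2 j : ℕ} {t y : ℝ} (hk0 : 0 < k1) (ht1 : (k1 : ℝ) / 4096 ≤ t)
    (ht : t ^ 2 ≤ 1 / 20) (hk : k1 ≤ 900) (hy : -1 < y ∧ y < 1) (hy2 : y ≤ yz n2)
    (hj : 2 ^ 14 / √(1 - y ^ 2) ≤ (j : ℝ)) : 2 ^ 14 * gt t y ≤ (gHi k1 n2 j : ℝ) := by
  have hkr : (0 : ℝ) < k1 := by exact_mod_cast hk0
  have hs : 0 < √(1 - y ^ 2) := Real.sqrt_pos.2 (by nlinarith [hy.1, hy.2])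
  set q : ℝ := (k1 : ℝ) / 4096 with hq
  have hq0 : 0 < q := by positivity
  have h1 : gt t y ≤ gt q y := gt_anti hq0 ht1 hy
  have hq2 : q ^ 2 ≤ 1 / 20 := by nlinarith
  refine le_trans (mul_le_mul_of_nonneg_left h1 (by positivity)) ?_
  refine le_succ_div_real (Nat.mul_pos (by norm_num) hk0) ?_
  have e1 : ((Nat.mul (gNum k1 n2) j : ℕ) : ℝ) = (gNum k1 n2 : ℝ) * j := Nat.cast_mul _ _
  have e2 : ((Nat.mul 67108864 k1 : ℕ) : ℝ) = 67108864 * k1 := by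
    show ((67108864 * k1 : ℕ) : ℝ) = _
    push_cast; ring
  rw [e1, e2, gNum_real hk, ← hq]
  have hN0 : 0 ≤ 2 * (1 - q ^ 2) + (1 + q ^ 2) * y := by nlinarith [sq_nonneg q, hy.1]
  have hN : 2 * (1 - q ^ 2) + (1 + q ^ 2) * y ≤ 2 * (1 - q ^ 2) + (1 + q ^ 2) * yz n2 := by
    have := mul_le_mul_of_nonneg_left hy2 (by positivity : 0 ≤ 1 + q ^ 2)
    linarith
  have e3 : 2 ^ 14 * gt q y * (67108864 * k1) =
      2 ^ 36 * (2 * (1 - q ^ 2) + (1 + q ^ 2) * y) * (2 ^ 14 / √(1 - y ^ 2)) := by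
    have hk1 : (k1 : ℝ) = 4096 * q := by rw [hq]; ring
    unfold gt
    rw [hk1]
    field_simp
    ring
  rw [e3]
  exact mul_le_mul (mul_le_mul_of_nonneg_left hN (by positivity)) hj (by positivity)
    (mul_nonneg (by positivity) (hN0.trans hN))

/-- upper bound of `2 ^ 14 / √(1 - y ^ 2)` on a cell -/
def jS (i1 i2 : ℕ) : ℕ := match Nat.ble (Nat.add i1 i2) 208 with
  | true => ent ivTU i1
  | false => ent ivTU i2

lemma iv_cell {i : ℕ} {y : ℝ} (hi : i ≤ 168) (h : y ^ 2 ≤ gz i ^ 2) :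
    2 ^ 14 / √(1 - y ^ 2) ≤ (ent ivTU i : ℝ) := by
  refine le_trans ?_ (iv_tables hi).2
  have hc := ivchk_all i (by omega)
  unfold ivchk at hc
  simp only [Bool.and_eq_true, decide_eq_true_eq] at hc
  have r3 : 0 < 16384 - ((i : ℝ) - 104) ^ 2 := by exact_mod_cast hc.2
  have e : 1 - gz i ^ 2 = (16384 - ((i : ℝ) - 104) ^ 2) / 16384 := by unfold gz; ring
  have hp : 0 < 1 - gz i ^ 2 := by rw [e]; positivity
  exact div_le_div_of_nonneg_left (by positivity) (Real.sqrt_pos.2 hp)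
    (Real.sqrt_le_sqrt (by linarith))

lemma jS_ge {i1 i2 : ℕ} {y : ℝ} (hi1 : i1 ≤ 168) (hi2 : i2 ≤ 168) (hy1 : gz i1 ≤ y)
    (hy2 : y ≤ gz i2) : 2 ^ 14 / √(1 - y ^ 2) ≤ (jS i1 i2 : ℝ) := by
  unfold jS
  cases hb : Nat.ble (Nat.add i1 i2) 208 with
  | true =>
    have h : i1 + i2 ≤ 208 := Nat.le_of_ble_eq_true hb
    have hr : (i1 : ℝ) + i2 ≤ 208 := by exact_mod_cast h
    clear hb
    refine iv_cell hi1 ?_
    have : gz i1 + gz i2 ≤ 0 := by unfold gz; linarith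
    nlinarith
  | false =>
    have h : 208 < i1 + i2 := by
      by_contra hcon
      rw [Nat.ble_eq_true_of_le (show Nat.add i1 i2 ≤ 208 from not_lt.1 hcon)] at hb
      cases hb
    have hr : (208 : ℝ) < (i1 : ℝ) + i2 := by exact_mod_cast h
    clear hb
    refine iv_cell hi2 ?_
    have : 0 ≤ gz i1 + gz i2 := by unfold gz; linarith
    nlinarith

/-- check of the shallow part `[i1, i2]`, `40 ≤ i1`; `m` = angle in units `π / 512` -/
def hopShC (P N ML KT k1 k2 i1 i2 vp vn mp mn m : ℕ) : Bool :=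
  hopN1 P N ML KT (gLo k2 (gn i1) (ent ivTL i1)) (gvS vn k1 (gn i2) (ent ivTU i2)) (jS i1 i2)
    vp vn mp mn (Nat.div (Nat.add m 15) 16)

/-- check of the deep part `[i1, i2]`, `i2 ≤ 40`; `gA = gAll k2` -/
def hopDpC (P N ML KT gA k1 i1 i2 vp vn mp mn m : ℕ) : Bool :=
  hopN1 P N ML KT gA (gvS vn k1 (gn i2) (ent ivTU i1)) (ent ivTU i1)
    vp vn mp mn (Nat.div (Nat.add m 15) 16)

/-- the bound of a contact: slope `l`, constant `mp - mn`, unit `u` -/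
noncomputable def hb (u : ℝ) (l mp mn : ℕ) (α : ℝ) : ℝ := l * u * (α / (π / 32)) + ((mp : ℝ) - mn) * u

lemma J_real {m : ℕ} {α : ℝ} (h : α ≤ m * (π / 512)) :
    α ≤ ((Nat.div (Nat.add m 15) 16 : ℕ) : ℝ) * (π / 32) := by
  have h1 : m ≤ (m + 15) / 16 * 16 := by omega
  have h2 : (m : ℝ) ≤ ((Nat.div (Nat.add m 15) 16 : ℕ) : ℝ) * 16 := by exact_mod_cast h1
  have hpi := pi_pos
  have h3 := mul_le_mul_of_nonneg_right h2 (by positivity : 0 ≤ π / 512)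
  calc α ≤ _ := h
    _ ≤ _ := h3
    _ = _ := by ring

/-- velocities of the south point -/
lemma hLo_south {t κ : ℝ} (ht0 : 0 < t) (ht1 : t < 1) :
    hLo (-κ) (-κ) (zs t) = -κ * (1 - zs t ^ 2) := by
  unfold hLo
  have h : ¬ (zs t = 1 / 2 ∧ 0 < -κ) := fun h => by
    have := (zs_mem ht0 ht1).2
    linarith [h.1]
  rw [if_neg h]
  split_ifs <;> rfl

lemma hHi_south {t κ : ℝ} : hHi (-κ) (-κ) (zs t) = -κ * (1 - zs t ^ 2) := by
  unfold hHi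
  split_ifs <;> rfl

lemma EBp_of_all {x y v w v' w' c a1 : ℝ} (hx1 : hLo v w x = a1) (hx2 : hHi v w x = a1)
    (hR1 : -1 ≤ RR x y) (hR2 : RR x y ≤ 1)
    (hlo : (RR x y ^ 2 < 1 → rate x y a1 (hLo v' w' y) ≤ c) ∧ (RR x y ^ 2 = 1 → nr x y a1 (hLo v' w' y) < 0))
    (hhi : (RR x y ^ 2 < 1 → rate x y a1 (hHi v' w' y) ≤ c) ∧ (RR x y ^ 2 = 1 → nr x y a1 (hHi v' w' y) < 0)) :
    EBp x y v w v' w' c := by
  left
  rw [hx1, hx2]
  refine ⟨fun h => ⟨hlo.1 h, hhi.1 h, hlo.1 h, hhi.1 h⟩, fun h => ?_⟩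
  have h1 : RR x y ^ 2 = 1 := le_antisymm (by nlinarith) h
  exact ⟨hlo.2 h1, hhi.2 h1, hlo.2 h1, hhi.2 h1⟩

/-- passing to larger velocities -/
lemma bound_up {t y κ v v' c : ℝ} (ht0 : 0 < t) (ht1 : t < 1) (ht : t ^ 2 ≤ 1 / 20)
    (hy : -1 < y ∧ y < 1) (hv : v ≤ v')
    (h : (RR (zs t) y ^ 2 < 1 → rate (zs t) y (-κ * (1 - zs t ^ 2)) (v * (1 - y ^ 2)) ≤ c) ∧
      (RR (zs t) y ^ 2 = 1 → nr (zs t) y (-κ * (1 - zs t ^ 2)) (v * (1 - y ^ 2)) < 0)) :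
    (RR (zs t) y ^ 2 < 1 → rate (zs t) y (-κ * (1 - zs t ^ 2)) (v' * (1 - y ^ 2)) ≤ c) ∧
      (RR (zs t) y ^ 2 = 1 → nr (zs t) y (-κ * (1 - zs t ^ 2)) (v' * (1 - y ^ 2)) < 0) := by
  have h1 := hop_mono (κ := κ) ht0 ht1 hy hv (gt_nonneg ht0 ht hy)
  refine ⟨fun hR => le_trans ?_ (h.1 hR), fun hR => lt_of_le_of_lt h1 (h.2 hR)⟩
  unfold rate
  exact div_le_div_of_nonneg_right h1 (Real.sqrt_nonneg _)

/-- a contact is impossible at the upper wall -/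
lemma RR_wall {t : ℝ} (ht0 : 0 < t) (ht : t ^ 2 ≤ 1 / 20) : 1 < RR (zs t) (1 / 2) := by
  have ht1 : t < 1 := by nlinarith
  rw [RR_zs ht0 ht1]
  have e : √(1 - (1 / 2 : ℝ) ^ 2) ≤ 1 := by
    rw [← Real.sqrt_one]; exact Real.sqrt_le_sqrt (by norm_num)
  have hs : 0 < √(1 - (1 / 2 : ℝ) ^ 2) := Real.sqrt_pos.2 (by norm_num)
  rw [lt_div_iff₀ (by positivity)]
  have h1 : 2 < (1 / 2 + 1 / 2) / t := by
    rw [lt_div_iff₀ ht0]; nlinarith
  nlinarith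

section

variable {K k1 k2 l ku i1 i2 vp vn mp mn m : ℕ} {t y u κ V W : ℝ}

lemma t_facts (ht0 : 0 < t) (ht : t ≤ (k2 : ℝ) / 4096) (hk : k2 ≤ 900) :
    t < 1 ∧ t ^ 2 ≤ 1 / 20 := by
  have hk2r : (k2 : ℝ) ≤ 900 := by exact_mod_cast hk
  have h1 : t ≤ 900 / 4096 := ht.trans (div_le_div_of_nonneg_right hk2r (by norm_num))
  norm_num at h1
  exact ⟨by linarith, by nlinarith⟩

/-- **shallow contacts** -/
theorem hopShC_sound (hu : 0 < u) (hκ : κ = K * u) (hk0 : 0 < k1) (ht1 : (k1 : ℝ) / 4096 ≤ t)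
    (ht : t ≤ (k2 : ℝ) / 4096) (hk : k2 ≤ 900) (hi1 : 40 ≤ i1) (hi2 : i2 ≤ 168)
    (hy1 : gz i1 ≤ y) (hy2 : y ≤ gz i2)
    (hl : l < 2 ^ 24) (hK : K < 2 ^ 24) (hku : ku < 2 ^ 24) (hkue : ku = kUof K k2)
    (hm : alSh k1 k2 i1 = m + 1)
    (h : hopShC (hopP l K) (hopN ku) (Nat.add (Nat.mul 403 l) (Nat.mul 20 ku)) (kTof K k2) k1 k2
      i1 i2 vp vn mp mn m = true) (hV : ((vp : ℝ) - vn) * u ≤ V) (hVW : VW V W)
    (hR1 : -1 ≤ RR (zs t) y) (hR2 : RR (zs t) y ≤ 1) :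
    EBp (zs t) y (-κ) (-κ) V W (hb u l mp mn (wd (zs t) y)) := by
  revert h hm
  have hk0r : (0 : ℝ) < k1 := by exact_mod_cast hk0
  have ht0 : 0 < t := lt_of_lt_of_le (by positivity) ht1
  obtain ⟨htl, htsq⟩ := t_facts ht0 ht hk
  have hi2r : (i2 : ℝ) ≤ 168 := by exact_mod_cast hi2
  have hi1r : (40 : ℝ) ≤ i1 := by exact_mod_cast hi1
  have hz1 : -(1 / 2) ≤ gz i1 := by unfold gz; linarith
  have hz2 : gz i2 ≤ 1 / 2 := by unfold gz; linarith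
  have h12 : i1 ≤ i2 := by
    have h := hy1.trans hy2
    unfold gz at h
    have h3 : (i1 : ℝ) ≤ i2 := by linarith
    exact_mod_cast h3
  have hi1' : i1 ≤ 168 := h12.trans hi2
  have hy : -1 < y ∧ y < 1 := ⟨by linarith, by linarith⟩
  have hne : y ≠ 1 / 2 := fun hc => by
    have := RR_wall ht0 htsq
    rw [← hc] at this
    linarith
  have hk1' : k1 ≤ 900 := by
    have : (k1 : ℝ) / 4096 ≤ (k2 : ℝ) / 4096 := ht1.trans ht
    have h3 : (k1 : ℝ) ≤ k2 := by linarith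
    have h4 : k1 ≤ k2 := by exact_mod_cast h3
    exact h4.trans hk
  have hk2p : 0 < k2 := by
    rcases Nat.eq_zero_or_pos k2 with h0 | h0
    · rw [h0] at ht; simp at ht; linarith
    · exact h0
  have hg1 : (gLo k2 (gn i1) (ent ivTL i1) : ℝ) ≤ 2 ^ 14 * gt t y := by
    have a1 := gLo_le (k := k2) (n := gn i1) (i := ent ivTL i1) hk2p hk
      (by rw [yz_gn]; exact (iv_tables hi1').1) (by
        rw [yz_gn]
        have hk2r : ((k2 : ℝ) / 4096) ^ 2 ≤ 1 / 20 :=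
          (t_facts (k2 := k2) (t := (k2 : ℝ) / 4096) (by linarith) le_rfl hk).2
        nlinarith [sq_nonneg ((k2 : ℝ) / 4096)])
    rw [yz_gn] at a1
    refine a1.trans (mul_le_mul_of_nonneg_left ?_ (by positivity))
    have hkq : ((k2 : ℝ) / 4096) ^ 2 ≤ 1 / 20 :=
      (t_facts (k2 := k2) (t := (k2 : ℝ) / 4096) (by linarith) le_rfl hk).2
    exact (gt_mono (by linarith) hkq hz1 hy1 hy.2).trans (gt_anti ht0 ht hy)
  have hg2 : vn = 0 ∨ 2 ^ 14 * gt t y ≤ (gvS vn k1 (gn i2) (ent ivTU i2) : ℝ) := by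
    rcases Nat.eq_zero_or_pos vn with h0 | h0
    · exact Or.inl h0
    right
    obtain ⟨w, hw⟩ := Nat.exists_eq_succ_of_ne_zero h0.ne'
    have e : gvS vn k1 (gn i2) (ent ivTU i2) = gHi k1 (gn i2) (ent ivTU i2) := by rw [hw]; rfl
    rw [e]
    have hkq : ((k1 : ℝ) / 4096) ^ 2 ≤ 1 / 20 := by
      have : (0 : ℝ) ≤ (k1 : ℝ) / 4096 := by positivity
      nlinarith
    have a1 := gHi_ge (k := k1) (n := gn i2) (i := ent ivTU i2) hk0 hk1'
      (by rw [yz_gn]; exact (iv_tables hi2).2) (by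
        rw [yz_gn]
        nlinarith [sq_nonneg ((k1 : ℝ) / 4096)])
    rw [yz_gn] at a1
    refine le_trans (mul_le_mul_of_nonneg_left ?_ (by positivity)) a1
    exact (gt_anti (by positivity) ht1 hy).trans
      (gt_mono (by positivity) hkq (by linarith) hy2 (by linarith))
  intro hm h
  have hα := (alSh_sound ht0 ht1 ht hk hi1 hi1' hy1 (hy2.trans hz2)).2 m hm
  have key := fun v (hv : v = ((vp : ℝ) - vn) * u) => hopN1_sound (κ := κ) (v := v) hu hκ hv ht0 ht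
    hk hy (jS_ge hi1' hi2 hy1 hy2) hg1 hg2 hl hK hku hkue h (J_real hα)
  have key1 := key _ rfl
  clear key hm h
  have hWV : V ≤ W := by
    rcases hVW with h | h
    · exact h.ge
    · exact h.2.le
  refine EBp_of_all (hLo_south ht0 htl) hHi_south hR1 hR2 ?_ ?_
  · have e : hLo V W y = V * (1 - y ^ 2) := by
      unfold hLo
      rw [if_neg (fun h => hne h.1), if_neg (by linarith)]
    rw [e]
    exact bound_up ht0 htl htsq hy hV key1
  · by_cases hyy : y ≤ -(1 / 2)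
    · have e : hHi V W y = W * (1 - y ^ 2) := by unfold hHi; rw [if_pos hyy]
      rw [e]
      exact bound_up ht0 htl htsq hy (hV.trans hWV) key1
    · have e : hHi V W y = V * (1 - y ^ 2) := by unfold hHi; rw [if_neg hyy]
      rw [e]
      exact bound_up ht0 htl htsq hy hV key1

/-- **deep contacts** -/
theorem hopDpC_sound (hu : 0 < u) (hκ : κ = K * u) (hk0 : 0 < k1) (ht1 : (k1 : ℝ) / 4096 ≤ t)
    (ht : t ≤ (k2 : ℝ) / 4096) (hk : k2 ≤ 900) (hi2 : i2 ≤ 40)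
    (hy1 : gz i1 ≤ y) (hy2 : y ≤ gz i2) (hys : y < -(1 / 2))
    (hl : l < 2 ^ 24) (hK : K < 2 ^ 24) (hku : ku < 2 ^ 24) (hkue : ku = kUof K k2)
    (hm : alDp k1 i1 i2 = m + 1)
    (h : hopDpC (hopP l K) (hopN ku) (Nat.add (Nat.mul 403 l) (Nat.mul 20 ku)) (kTof K k2) (gAll k2)
      k1 i1 i2 vp vn mp mn m = true) (hV : ((vp : ℝ) - vn) * u ≤ W)
    (hR1 : -1 ≤ RR (zs t) y) (hR2 : RR (zs t) y ≤ 1) :
    EBp (zs t) y (-κ) (-κ) V W (hb u l mp mn (wd (zs t) y)) := by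
  revert h hm
  have hk0r : (0 : ℝ) < k1 := by exact_mod_cast hk0
  have ht0 : 0 < t := lt_of_lt_of_le (by positivity) ht1
  obtain ⟨htl, htsq⟩ := t_facts ht0 ht hk
  have hi2r : (i2 : ℝ) ≤ 40 := by exact_mod_cast hi2
  have h12 : i1 ≤ i2 := by
    have h := hy1.trans hy2
    unfold gz at h
    have h3 : (i1 : ℝ) ≤ i2 := by linarith
    exact_mod_cast h3
  have hi1' : i1 ≤ 168 := by omega
  have hz1 : -(13 / 16) ≤ gz i1 := by
    have : (0 : ℝ) ≤ i1 := Nat.cast_nonneg _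
    unfold gz; linarith
  have hy : -1 < y ∧ y < 1 := ⟨by linarith, by linarith⟩
  have hk1' : k1 ≤ 900 := by
    have : (k1 : ℝ) / 4096 ≤ (k2 : ℝ) / 4096 := ht1.trans ht
    have h3 : (k1 : ℝ) ≤ k2 := by linarith
    have h4 : k1 ≤ k2 := by exact_mod_cast h3
    exact h4.trans hk
  have hk2p : 0 < k2 := by
    rcases Nat.eq_zero_or_pos k2 with h0 | h0
    · rw [h0] at ht; simp at ht; linarith
    · exact h0
  have hj : 2 ^ 14 / √(1 - y ^ 2) ≤ (ent ivTU i1 : ℝ) := iv_cell hi1' (by nlinarith)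
  have hg1 : (gAll k2 : ℝ) ≤ 2 ^ 14 * gt t y :=
    (gAll_le hk2p hk hy).trans (mul_le_mul_of_nonneg_left (gt_anti ht0 ht hy) (by positivity))
  have hg2 : vn = 0 ∨ 2 ^ 14 * gt t y ≤ (gvS vn k1 (gn i2) (ent ivTU i1) : ℝ) := by
    rcases Nat.eq_zero_or_pos vn with h0 | h0
    · exact Or.inl h0
    right
    obtain ⟨w, hw⟩ := Nat.exists_eq_succ_of_ne_zero h0.ne'
    have e : gvS vn k1 (gn i2) (ent ivTU i1) = gHi k1 (gn i2) (ent ivTU i1) := by rw [hw]; rfl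
    rw [e]
    exact gHi_cell hk0 ht1 htsq hk1' hy (by rw [yz_gn]; exact hy2) hj
  intro hm h
  have hα := (alDp_sound hk0 ht1 htl hi2 hy1 hy2).2 m hm
  have key := fun v (hv : v = ((vp : ℝ) - vn) * u) => hopN1_sound (κ := κ) (v := v) hu hκ hv ht0 ht
    hk hy hj hg1 hg2 hl hK hku hkue h (J_real hα)
  have key1 := key _ rfl
  clear key hm h
  refine EBp_of_all (hLo_south ht0 htl) hHi_south hR1 hR2 ?_ ?_
  · have e : hLo V W y = W * (1 - y ^ 2) := by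
      unfold hLo
      rw [if_neg (fun h => by linarith [h.1]), if_pos hys]
    rw [e]
    exact bound_up ht0 htl htsq hy hV key1
  · have e : hHi V W y = W * (1 - y ^ 2) := by unfold hHi; rw [if_pos hys.le]
    rw [e]
    exact bound_up ht0 htl htsq hy hV key1

end

end Pool.Agent.Helper98.KT
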