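import Pool.Agent.Helper66.Kiss.LLEdge

set_option autoImplicit false

/-! # Hop constants: rates of the contacts of the moving south point

For `x = z_s ∈ (-1, 0)`, velocity `-κ (1 - x ^ 2)`, and `y = z_l` with velocity `v (1 - y ^ 2)`:
the rate of `α = wd x y` is at most `lam * α + mu`, if
`G α = (lam * α + mu) * sin α + k * (cos α - s) + g * v ≥ 0`, `k = κ / (-x)`,
`g = (-x + y / 2) / (√(1 - x ^ 2) √(1 - y ^ 2))`, `s = √(1 - x ^ 2) / (2 √(1 - y ^ 2))`.
-/

namespace Pool.Agent.Helper98.KT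

open Real Set Pool.Agent.Helper66.Kiss

/-- the function to be checked -/
noncomputable def GG (lam mu k c t : ℝ) : ℝ := (lam * t + mu) * sin t + k * cos t + c

lemma GG_hasDeriv (lam mu k c t : ℝ) :
    HasDerivAt (GG lam mu k c) (lam * sin t + (lam * t + mu) * cos t - k * sin t) t := by
  unfold GG
  have h1 : HasDerivAt (fun t : ℝ => lam * t + mu) lam t := by
    simpa using ((hasDerivAt_id t).const_mul lam).add_const mu
  have h2 := h1.mul (hasDerivAt_sin t)
  have h3 := ((hasDerivAt_cos t).const_mul k)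
  have h4 := (h2.add h3).add_const c
  refine h4.congr_deriv ?_
  ring

lemma GG_hasDeriv2 (lam mu k t : ℝ) :
    HasDerivAt (fun t => lam * sin t + (lam * t + mu) * cos t - k * sin t)
      (2 * lam * cos t - (lam * t + mu) * sin t - k * cos t) t := by
  have h1 : HasDerivAt (fun t : ℝ => lam * t + mu) lam t := by
    simpa using ((hasDerivAt_id t).const_mul lam).add_const mu
  have h2 := h1.mul (hasDerivAt_cos t)
  have h3 := ((hasDerivAt_sin t).const_mul k)
  have h4 := ((hasDerivAt_sin t).const_mul lam)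
  refine ((h4.add h2).sub h3).congr_deriv ?_
  ring

/-- concavity after subtraction of a parabola -/
lemma GG_concave {lam mu k c M a b : ℝ}
    (hM : ∀ t ∈ Icc a b, 2 * lam * cos t - (lam * t + mu) * sin t - k * cos t ≤ M) :
    ConcaveOn ℝ (Icc a b) (fun t => GG lam mu k c t - M / 2 * t ^ 2) := by
  have hd1 : ∀ t : ℝ, HasDerivAt (fun t => GG lam mu k c t - M / 2 * t ^ 2)
      (lam * sin t + (lam * t + mu) * cos t - k * sin t - M * t) t := by
    intro t
    have h1 := GG_hasDeriv lam mu k c t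
    have h2 : HasDerivAt (fun t : ℝ => M / 2 * t ^ 2) (M * t) t := by
      have := (hasDerivAt_pow 2 t).const_mul (M / 2)
      refine this.congr_deriv ?_
      norm_num; ring
    exact h1.sub h2
  have hd2 : ∀ t : ℝ, HasDerivAt
      (fun t => lam * sin t + (lam * t + mu) * cos t - k * sin t - M * t)
      (2 * lam * cos t - (lam * t + mu) * sin t - k * cos t - M) t := by
    intro t
    have h1 := GG_hasDeriv2 lam mu k t
    have h2 : HasDerivAt (fun t : ℝ => M * t) M t := by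
      simpa using (hasDerivAt_id t).const_mul M
    exact h1.sub h2
  have e1 : deriv (fun t => GG lam mu k c t - M / 2 * t ^ 2) =
      fun t => lam * sin t + (lam * t + mu) * cos t - k * sin t - M * t :=
    funext fun t => (hd1 t).deriv
  refine concaveOn_of_deriv2_nonpos (convex_Icc a b)
    (fun t _ => (hd1 t).continuousAt.continuousWithinAt)
    (fun t _ => (hd1 t).differentiableAt.differentiableWithinAt) ?_ ?_
  · rw [e1]
    exact fun t _ => (hd2 t).differentiableAt.differentiableWithinAt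
  · intro t ht
    have e2 : deriv^[2] (fun t => GG lam mu k c t - M / 2 * t ^ 2) t =
        2 * lam * cos t - (lam * t + mu) * sin t - k * cos t - M := by
      show deriv (deriv (fun t => GG lam mu k c t - M / 2 * t ^ 2)) t = _
      rw [e1]
      exact (hd2 t).deriv
    rw [e2]
    have := hM t (interior_subset ht)
    linarith

/-- one step of the grid -/
lemma GG_step {lam mu k c M a b m : ℝ} (hab : a ≤ b)
    (hM : ∀ t ∈ Icc a b, 2 * lam * cos t - (lam * t + mu) * sin t - k * cos t ≤ M)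
    (ha : m ≤ GG lam mu k c a) (hb : m ≤ GG lam mu k c b) {t : ℝ} (ht : t ∈ Icc a b) :
    m - M / 2 * ((t - a) * (b - t)) ≤ GG lam mu k c t := by
  rcases hab.eq_or_lt with h | h
  · subst h
    have : t = a := le_antisymm ht.2 ht.1
    subst this
    simpa using ha
  · have hc := GG_concave (c := c) hM
    have hba : 0 < b - a := by linarith
    have p1 : 0 ≤ (b - t) / (b - a) := div_nonneg (by linarith [ht.2]) hba.le
    have p2 : 0 ≤ (t - a) / (b - a) := div_nonneg (by linarith [ht.1]) hba.le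
    have h1 := hc.2 (left_mem_Icc.2 hab) (right_mem_Icc.2 hab) p1 p2
      (by rw [← add_div, div_eq_one_iff_eq hba.ne']; ring)
    simp only [smul_eq_mul] at h1
    have e1 : (b - t) / (b - a) * a + (t - a) / (b - a) * b = t := by
      field_simp; ring
    rw [e1] at h1
    have h2 : (b - t) / (b - a) * m ≤ (b - t) / (b - a) * GG lam mu k c a :=
      mul_le_mul_of_nonneg_left ha (div_nonneg (by linarith [ht.2]) hba.le)
    have h3 : (t - a) / (b - a) * m ≤ (t - a) / (b - a) * GG lam mu k c b :=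
      mul_le_mul_of_nonneg_left hb (div_nonneg (by linarith [ht.1]) hba.le)
    have e2 : (b - t) / (b - a) * m + (t - a) / (b - a) * m = m := by
      field_simp; ring
    have e3 : (b - t) / (b - a) * (M / 2 * a ^ 2) + (t - a) / (b - a) * (M / 2 * b ^ 2) =
        M / 2 * t ^ 2 + M / 2 * ((t - a) * (b - t)) := by
      field_simp; ring
    nlinarith

/-- the grid lemma: `J` steps of width `h` -/
theorem GG_grid {lam mu k c M h : ℝ} {J : ℕ} (hh : 0 < h) (hM0 : 0 ≤ M)
    (hM : ∀ t ∈ Icc 0 (J * h), 2 * lam * cos t - (lam * t + mu) * sin t - k * cos t ≤ M)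
    (hg : ∀ j ≤ J, M * h ^ 2 / 8 ≤ GG lam mu k c (j * h)) {t : ℝ} (ht : t ∈ Icc 0 (J * h)) :
    0 ≤ GG lam mu k c t := by
  have hg0 : ∀ j ≤ J, 0 ≤ GG lam mu k c (j * h) := fun j hj =>
    le_trans (by positivity) (hg j hj)
  by_cases hJ : t = J * h
  · rw [hJ]; exact hg0 J le_rfl
  have htJ : t < J * h := lt_of_le_of_ne ht.2 hJ
  set j := ⌊t / h⌋₊ with hj
  have h0 : 0 ≤ t / h := div_nonneg ht.1 hh.le
  have h1 : (j : ℝ) ≤ t / h := Nat.floor_le h0
  have h2 : t / h < j + 1 := Nat.lt_floor_add_one _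
  have h3 : (j : ℝ) * h ≤ t := by rwa [le_div_iff₀ hh] at h1
  have h4 : t < (j + 1) * h := by rwa [div_lt_iff₀ hh] at h2
  have hjJ : j < J := by
    have h5 : (j : ℝ) * h < J * h := lt_of_le_of_lt h3 htJ
    have h6 : (j : ℝ) < J := lt_of_mul_lt_mul_right h5 hh.le
    exact_mod_cast h6
  have h7 : ((j : ℝ) + 1) * h ≤ J * h := by
    have : ((j : ℝ) + 1) ≤ J := by exact_mod_cast hjJ
    exact mul_le_mul_of_nonneg_right this hh.le
  have hstep := GG_step (c := c) (a := (j : ℝ) * h) (b := ((j : ℝ) + 1) * h) (m := M * h ^ 2 / 8)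
    (by nlinarith) (fun t ht => hM t ⟨le_trans (by positivity) ht.1, ht.2.trans h7⟩)
    (hg j hjJ.le) (by simpa using hg (j + 1) hjJ) ⟨h3, h4.le⟩
  have h8 : (t - j * h) * ((j + 1) * h - t) ≤ h ^ 2 / 4 := by
    nlinarith [sq_nonneg ((t - j * h) - ((j + 1) * h - t))]
  have h9 := mul_le_mul_of_nonneg_left h8 (by positivity : 0 ≤ M / 2)
  linarith

/-- algebraic form of the numerator -/
lemma nr_hop {x y κ v : ℝ} (hx : -1 < x ∧ x < 0) (hy : -1 < y ∧ y < 1) :
    nr x y (-κ * (1 - x ^ 2)) (v * (1 - y ^ 2)) =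
      -(√(1 - x ^ 2) * √(1 - y ^ 2)) * (κ / (-x) * (RR x y - √(1 - x ^ 2) / (2 * √(1 - y ^ 2))) +
        (-x + y / 2) / (√(1 - x ^ 2) * √(1 - y ^ 2)) * v) := by
  have hx2 : 0 < 1 - x ^ 2 := by nlinarith [hx.1, hx.2]
  have hy2 : 0 < 1 - y ^ 2 := by nlinarith [hy.1, hy.2]
  have s1 : √(1 - x ^ 2) ^ 2 = 1 - x ^ 2 := Real.sq_sqrt hx2.le
  have s2 : √(1 - y ^ 2) ^ 2 = 1 - y ^ 2 := Real.sq_sqrt hy2.le
  have p1 : 0 < √(1 - x ^ 2) := Real.sqrt_pos.2 hx2
  have p2 : 0 < √(1 - y ^ 2) := Real.sqrt_pos.2 hy2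
  have hx0 : x ≠ 0 := hx.2.ne
  unfold nr RR
  set a := √(1 - x ^ 2)
  set b := √(1 - y ^ 2)
  have e1 : (y - x / 2) * (-κ * (1 - x ^ 2)) / (1 - x ^ 2) = (y - x / 2) * (-κ) := by
    field_simp
  have e2 : (x - y / 2) * (v * (1 - y ^ 2)) / (1 - y ^ 2) = (x - y / 2) * v := by
    field_simp
  rw [e1, e2]
  have e3 : -(a * b) * (κ / (-x) * ((1 / 2 - x * y) / (a * b) - a / (2 * b)) +
      (-x + y / 2) / (a * b) * v) =
      -(κ / (-x) * ((1 / 2 - x * y) - a ^ 2 / 2) + (-x + y / 2) * v) := by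
    field_simp
  rw [e3, s1]
  field_simp
  ring

/-- **Rate of a contact of the south point.** -/
theorem hop_bound {x y κ v lam mu M h : ℝ} {J : ℕ} (hx : -1 < x ∧ x < 0) (hy : -1 < y ∧ y < 1)
    (hh : 0 < h) (hM0 : 0 < M) (hJ : (J : ℝ) * h ≤ π)
    (hM : ∀ t ∈ Icc 0 (J * h), 2 * lam * cos t - (lam * t + mu) * sin t - κ / (-x) * cos t ≤ M)
    (hg : ∀ j ≤ J, M * h ^ 2 / 8 ≤ GG lam mu (κ / (-x))
      ((-x + y / 2) / (√(1 - x ^ 2) * √(1 - y ^ 2)) * v -
        κ / (-x) * (√(1 - x ^ 2) / (2 * √(1 - y ^ 2)))) (j * h))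
    (hα : wd x y ≤ J * h) :
    (RR x y ^ 2 < 1 → rate x y (-κ * (1 - x ^ 2)) (v * (1 - y ^ 2)) ≤ lam * wd x y + mu) ∧
      (RR x y ^ 2 = 1 → nr x y (-κ * (1 - x ^ 2)) (v * (1 - y ^ 2)) < 0) := by
  have hx2 : 0 < 1 - x ^ 2 := by nlinarith [hx.1, hx.2]
  have hy2 : 0 < 1 - y ^ 2 := by nlinarith [hy.1, hy.2]
  have s1 : √(1 - x ^ 2) ^ 2 = 1 - x ^ 2 := Real.sq_sqrt hx2.le
  have s2 : √(1 - y ^ 2) ^ 2 = 1 - y ^ 2 := Real.sq_sqrt hy2.le
  have p1 : 0 < √(1 - x ^ 2) := Real.sqrt_pos.2 hx2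
  have p2 : 0 < √(1 - y ^ 2) := Real.sqrt_pos.2 hy2
  have hα0 : 0 ≤ wd x y := wd_nonneg x y
  have hw : wd x y = arccos (RR x y) := rfl
  have hnr := nr_hop (κ := κ) (v := v) hx hy
  set a := √(1 - x ^ 2)
  set b := √(1 - y ^ 2)
  set k := κ / (-x) with hk
  set c := (-x + y / 2) / (a * b) * v - k * (a / (2 * b)) with hc
  have hG0 : 0 ≤ GG lam mu k c (wd x y) := GG_grid hh hM0.le hM hg ⟨hα0, hα⟩
  constructor
  · intro hR
    have hR1 : -1 < RR x y := by nlinarith
    have hR2 : RR x y < 1 := by nlinarith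
    have hcos : cos (wd x y) = RR x y := by rw [hw]; exact Real.cos_arccos hR1.le hR2.le
    have hsin : sin (wd x y) = √(1 - RR x y ^ 2) := by rw [hw]; exact Real.sin_arccos _
    have hsp : 0 < sin (wd x y) := by rw [hsin]; exact Real.sqrt_pos.2 (by linarith)
    have hrt : rt x y = a * b * sin (wd x y) := by
      rw [hsin]
      unfold rt
      rw [Real.sqrt_eq_iff_mul_self_eq_of_pos (by rw [← hsin]; positivity)]
      have e : √(1 - RR x y ^ 2) ^ 2 = 1 - RR x y ^ 2 := Real.sq_sqrt (by linarith)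
      have e2 : a * b * RR x y = 1 / 2 - x * y := by
        show a * b * ((1 / 2 - x * y) / (a * b)) = _
        exact mul_div_cancel₀ _ (mul_pos p1 p2).ne'
      have e3 : (a * b * √(1 - RR x y ^ 2)) * (a * b * √(1 - RR x y ^ 2)) =
          a ^ 2 * b ^ 2 * (1 - RR x y ^ 2) := by
        have e5 : (a * b * √(1 - RR x y ^ 2)) * (a * b * √(1 - RR x y ^ 2)) =
          a ^ 2 * b ^ 2 * √(1 - RR x y ^ 2) ^ 2 := by ring
        rw [e5, e]
      rw [e3]
      have e4 : a ^ 2 * b ^ 2 * (1 - RR x y ^ 2) = a ^ 2 * b ^ 2 - (a * b * RR x y) ^ 2 := by ring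
      rw [e4, e2, s1, s2]
      ring
    unfold rate
    rw [hrt, hnr, div_le_iff₀ (by positivity)]
    unfold GG at hG0
    rw [hcos] at hG0
    have h5 : 0 ≤ a * b * ((lam * wd x y + mu) * sin (wd x y) + k * RR x y + c) := by positivity
    rw [hc] at h5
    nlinarith
  · intro hR
    have hgj : ∀ j ≤ J, 0 < GG lam mu k c (j * h) := fun j hj =>
      lt_of_lt_of_le (by positivity) (hg j hj)
    have hpos : 0 < k * RR x y + c := by
      have h0 : (RR x y - 1) * (RR x y + 1) = 0 := by ring_nf; linarith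
      rcases mul_eq_zero.1 h0 with h1 | h1
      · have h2 : RR x y = 1 := by linarith
        have h3 := hgj 0 (Nat.zero_le _)
        unfold GG at h3
        simp at h3
        rw [h2]; linarith
      · have h2 : RR x y = -1 := by linarith
        have h3 : wd x y = π := by rw [hw, h2, Real.arccos_neg_one]
        have h4 : (J : ℝ) * h = π := le_antisymm hJ (h3 ▸ hα)
        have h5 := hgj J le_rfl
        rw [h4] at h5
        unfold GG at h5
        simp at h5
        rw [h2]; linarith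
    rw [hnr]
    have h5 : 0 < a * b * (k * RR x y + c) := by positivity
    rw [hc] at h5
    nlinarith

end Pool.Agent.Helper98.KT
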