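import Mathlib

set_option autoImplicit false

/-! # Certified values of sine and cosine at the multiples of `π / 32` -/

namespace Pool.Agent.Helper98.KT

open Real

/-- approximations of `2 ^ 30 * cos (j * π / 32)` -/
def tC : List ℤ := [1073741824, 1068571464, 1053110177, 1027506863, 992008096, 946955749, 892783700, 830013656, 759250127, 681174604, 596538997, 506158394, 410903209, 311690801, 209476640, 105245104, 1, -105245103, -209476639, -311690800, -410903209, -506158395, -596538999, -681174607, -759250131, -830013661, -892783706, -946955756, -992008104, -1027506872, -1053110187, -1068571475, -1073741836]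
/-- approximations of `2 ^ 30 * sin (j * π / 32)` -/
def tS : List ℤ := [0, 105245103, 209476638, 311690799, 410903207, 506158393, 596538997, 681174604, 759250127, 830013657, 892783701, 946955750, 992008098, 1027506866, 1053110181, 1068571469, 1073741830, 1068571470, 1053110183, 1027506869, 992008102, 946955755, 892783706, 830013662, 759250133, 681174610, 596539003, 506158399, 410903213, 311690804, 209476642, 105245106, 2]
/-- error bounds -/
def tE : List ℤ := [0, 3, 7, 11, 16, 21, 26, 32, 38, 45, 53, 61, 70, 80, 91, 103, 116, 130, 146, 163, 182, 202, 224, 248, 275, 304, 336, 371, 409, 451, 497, 547, 601]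

/-- lower bounds of `2 ^ 14 * sin (j * π / 32)` -/
def tSL : List ℕ := [0, 1605, 3196, 4756, 6269, 7723, 9102, 10393, 11585, 12665, 13622, 14449, 15136, 15678, 16069, 16305, 16383, 16305, 16069, 15678, 15136, 14449, 13622, 12664, 11585, 10393, 9102, 7723, 6269, 4756, 3196, 1605, 0]
/-- upper bounds of `2 ^ 14 * sin (j * π / 32)` -/
def tSU : List ℕ := [0, 1606, 3197, 4757, 6270, 7724, 9103, 10394, 11586, 12666, 13623, 14450, 15137, 15679, 16070, 16306, 16385, 16306, 16070, 15679, 15137, 14450, 13623, 12666, 11586, 10394, 9103, 7724, 6270, 4757, 3197, 1606, 1]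
/-- lower bounds of `2 ^ 14 * cos (j * π / 32)`, positive part -/
def tCP : List ℕ := [16384, 16305, 16069, 15678, 15136, 14449, 13622, 12665, 11585, 10393, 9102, 7723, 6269, 4756, 3196, 1605, 0, 0, 0, 0, 0, 0, 0, 0, 0, 0, 0, 0, 0, 0, 0, 0, 0]
/-- lower bounds of `2 ^ 14 * cos (j * π / 32)`, negative part -/
def tCM : List ℕ := [0, 0, 0, 0, 0, 0, 0, 0, 0, 0, 0, 0, 0, 0, 0, 0, 1, 1606, 3197, 4757, 6270, 7724, 9103, 10394, 11586, 12666, 13623, 14450, 15137, 15679, 16070, 16306, 16385]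

lemma cos32 : |(2 : ℝ) ^ 30 * cos (π / 32) - 1068571464| ≤ 1 ∧
    |(2 : ℝ) ^ 30 * sin (π / 32) - 105245103| ≤ 1 := by
  have a0 : (14142135623730 / 10000000000000 : ℝ) ≤ √2 := Real.le_sqrt_of_sq_le (by norm_num)
  have b0 : √2 ≤ (14142135623731 / 10000000000000 : ℝ) := Real.sqrt_le_iff.2 ⟨by norm_num, by norm_num⟩
  have a1 : (18477590650225 / 10000000000000 : ℝ) ≤ √(2 + √2) :=
    Real.le_sqrt_of_sq_le (le_trans (by norm_num) (add_le_add_right a0 2))
  have b1 : √(2 + √2) ≤ (18477590650226 / 10000000000000 : ℝ) :=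
    Real.sqrt_le_iff.2 ⟨by norm_num, le_trans (add_le_add_right b0 2) (by norm_num)⟩
  have a2 : (19615705608064 / 10000000000000 : ℝ) ≤ √(2 + √(2 + √2)) :=
    Real.le_sqrt_of_sq_le (le_trans (by norm_num) (add_le_add_right a1 2))
  have b2 : √(2 + √(2 + √2)) ≤ (19615705608065 / 10000000000000 : ℝ) :=
    Real.sqrt_le_iff.2 ⟨by norm_num, le_trans (add_le_add_right b1 2) (by norm_num)⟩
  have a3 : (19903694533443 / 10000000000000 : ℝ) ≤ √(2 + √(2 + √(2 + √2))) :=
    Real.le_sqrt_of_sq_le (le_trans (by norm_num) (add_le_add_right a2 2))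
  have b3 : √(2 + √(2 + √(2 + √2))) ≤ (19903694533445 / 10000000000000 : ℝ) :=
    Real.sqrt_le_iff.2 ⟨by norm_num, le_trans (add_le_add_right b2 2) (by norm_num)⟩
  have a4 : (1960342806590 / 10000000000000 : ℝ) ≤ √(2 - √(2 + √(2 + √2))) :=
    Real.le_sqrt_of_sq_le (le_trans (by norm_num) (sub_le_sub_left b2 2))
  have b4 : √(2 - √(2 + √(2 + √2))) ≤ (1960342806593 / 10000000000000 : ℝ) :=
    Real.sqrt_le_iff.2 ⟨by norm_num, le_trans (sub_le_sub_left a2 2) (by norm_num)⟩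
  rw [cos_pi_div_thirty_two, sin_pi_div_thirty_two]
  constructor
  · rw [abs_le]
    constructor
    · have := a3; norm_num at *; linarith
    · have := b3; norm_num at *; linarith
  · rw [abs_le]
    constructor
    · have := a4; norm_num at *; linarith
    · have := b4; norm_num at *; linarith

/-- one step of the recursion, integer part -/
def tchk (j : ℕ) : Bool :=
  let C := tC.getD j 0
  let S := tS.getD j 0
  let C' := tC.getD (j + 1) 0
  let S' := tS.getD (j + 1) 0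
  let E := tE.getD j 0
  let E' := tE.getD (j + 1) 0
  decide (|C' * 2 ^ 30 - (C * 1068571464 - S * 105245103)| ≤ 2 ^ 30) &&
  decide (|S' * 2 ^ 30 - (S * 1068571464 + C * 105245103)| ≤ 2 ^ 30) &&
  decide (3 * 2 ^ 30 + (1068571464 + 105245103) * E ≤ 2 ^ 30 * E') && decide (0 ≤ E)

lemma tchk_all : ∀ j < 32, tchk j = true := by decide +kernel

lemma step_real {a A b B e : ℝ} {N : ℝ} (hN : 0 ≤ N) (ha : |a| ≤ N) (h1 : |a - A| ≤ e)
    (h2 : |b - B| ≤ 1) (hB : 0 ≤ B) : |a * b - A * B| ≤ N + B * e := by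
  have e1 : a * b - A * B = a * (b - B) + (a - A) * B := by ring
  rw [e1]
  have h3 : |a * (b - B)| ≤ N * 1 := by
    rw [abs_mul]; exact mul_le_mul ha h2 (abs_nonneg _) hN
  have h4 : |(a - A) * B| ≤ e * B := by
    rw [abs_mul, abs_of_nonneg hB]; exact mul_le_mul_of_nonneg_right h1 hB
  calc |a * (b - B) + (a - A) * B| ≤ |a * (b - B)| + |(a - A) * B| := abs_add_le _ _
    _ ≤ N + B * e := by linarith

theorem trig_tab : ∀ j : ℕ, j ≤ 32 → |(2 : ℝ) ^ 30 * cos (j * (π / 32)) - (tC.getD j 0 : ℤ)| ≤ (tE.getD j 0 : ℤ) ∧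
    |(2 : ℝ) ^ 30 * sin (j * (π / 32)) - (tS.getD j 0 : ℤ)| ≤ (tE.getD j 0 : ℤ) := by
  intro j
  induction j with
  | zero =>
    intro _
    constructor
    · simp [tC, tE]; norm_num
    · simp [tS, tE]
  | succ j ih =>
    intro hj
    obtain ⟨h1, h2⟩ := ih (by omega)
    obtain ⟨g1, g2⟩ := cos32
    have hc := tchk_all j (by omega)
    unfold tchk at hc
    simp only [Bool.and_eq_true, decide_eq_true_eq] at hc
    obtain ⟨⟨⟨hc1, hc2⟩, hc3⟩, hc4⟩ := hc
    set C := tC.getD j 0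
    set S := tS.getD j 0
    set C' := tC.getD (j + 1) 0
    set S' := tS.getD (j + 1) 0
    set E := tE.getD j 0
    set E' := tE.getD (j + 1) 0
    have hN : (0 : ℝ) ≤ 2 ^ 30 := by positivity
    set x := (j : ℝ) * (π / 32) with hx
    have ex : ((j + 1 : ℕ) : ℝ) * (π / 32) = x + π / 32 := by rw [hx]; push_cast; ring
    rw [ex, cos_add, sin_add]
    set N : ℝ := 2 ^ 30 with hNd
    have hNv : N = 1073741824 := by rw [hNd]; norm_num
    have nc : |N * cos x| ≤ N := by
      rw [abs_mul, abs_of_nonneg hN]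
      exact mul_le_of_le_one_right hN (abs_cos_le_one x)
    have ns : |N * sin x| ≤ N := by
      rw [abs_mul, abs_of_nonneg hN]
      exact mul_le_of_le_one_right hN (abs_sin_le_one x)
    have k1 := step_real hN nc h1 g1 (by norm_num)
    have k2 := step_real hN ns h2 g2 (by norm_num)
    have k3 := step_real hN ns h2 g1 (by norm_num)
    have k4 := step_real hN nc h1 g2 (by norm_num)
    have q1 : |((C' : ℤ) : ℝ) * N - ((C : ℤ) * 1068571464 - (S : ℤ) * 105245103)| ≤ N := by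
      have : ((|C' * 2 ^ 30 - (C * 1068571464 - S * 105245103)| : ℤ) : ℝ) ≤ ((2 ^ 30 : ℤ) : ℝ) := by
        exact_mod_cast hc1
      push_cast at this
      rw [hNv]; exact this
    have q2 : |((S' : ℤ) : ℝ) * N - ((S : ℤ) * 1068571464 + (C : ℤ) * 105245103)| ≤ N := by
      have : ((|S' * 2 ^ 30 - (S * 1068571464 + C * 105245103)| : ℤ) : ℝ) ≤ ((2 ^ 30 : ℤ) : ℝ) := by
        exact_mod_cast hc2
      push_cast at this
      rw [hNv]; exact this
    have q3 : 3 * N + (1068571464 + 105245103) * (E : ℝ) ≤ N * (E' : ℝ) := by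
      have : ((3 * 2 ^ 30 + (1068571464 + 105245103) * E : ℤ) : ℝ) ≤ ((2 ^ 30 * E' : ℤ) : ℝ) := by
        exact_mod_cast hc3
      push_cast at this
      rw [hNv]; linarith
    have hNpos : 0 < N := by positivity
    rw [abs_le] at k1 k2 k3 k4 q1 q2
    constructor
    · rw [abs_le]
      constructor
      · refine le_of_mul_le_mul_left ?_ hNpos
        nlinarith [k1.1, k1.2, k2.1, k2.2, q1.1, q1.2, q3]
      · refine le_of_mul_le_mul_left ?_ hNpos
        nlinarith [k1.1, k1.2, k2.1, k2.2, q1.1, q1.2, q3]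
    · rw [abs_le]
      constructor
      · refine le_of_mul_le_mul_left ?_ hNpos
        nlinarith [k3.1, k3.2, k4.1, k4.2, q2.1, q2.2, q3]
      · refine le_of_mul_le_mul_left ?_ hNpos
        nlinarith [k3.1, k3.2, k4.1, k4.2, q2.1, q2.2, q3]

/-- integer checks for the tables -/
def tchk2 (j : ℕ) : Bool :=
  decide (tSL.getD j 0 = 0 ∨ (tSL.getD j 0 : ℤ) * 2 ^ 16 ≤ tS.getD j 0 - tE.getD j 0) &&
  decide (tS.getD j 0 + tE.getD j 0 ≤ (tSU.getD j 0 : ℤ) * 2 ^ 16) &&
  decide ((tCP.getD j 0 : ℤ) * 2 ^ 16 - (tCM.getD j 0 : ℤ) * 2 ^ 16 ≤ tC.getD j 0 - tE.getD j 0) &&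
  decide (tCP.getD j 0 = 0 ∨ tCM.getD j 0 = 0)

lemma tchk2_all : ∀ j < 33, tchk2 j = true := by decide +kernel

/-- **the tables** -/
theorem trig_tables {j : ℕ} (hj : j ≤ 32) :
    (tSL.getD j 0 : ℝ) ≤ 2 ^ 14 * sin (j * (π / 32)) ∧
    2 ^ 14 * sin (j * (π / 32)) ≤ (tSU.getD j 0 : ℝ) ∧
    (tCP.getD j 0 : ℝ) - (tCM.getD j 0 : ℝ) ≤ 2 ^ 14 * cos (j * (π / 32)) ∧
    (tCP.getD j 0 = 0 ∨ tCM.getD j 0 = 0) := by
  obtain ⟨h1, h2⟩ := trig_tab j hj
  have hc := tchk2_all j (by omega)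
  unfold tchk2 at hc
  simp only [Bool.and_eq_true, decide_eq_true_eq] at hc
  obtain ⟨⟨⟨c1, c2⟩, c3⟩, c4⟩ := hc
  rw [abs_le] at h1 h2
  have hs : 0 ≤ sin (j * (π / 32)) := by
    apply sin_nonneg_of_nonneg_of_le_pi (by positivity)
    have : (j : ℝ) ≤ 32 := by exact_mod_cast hj
    nlinarith [Real.pi_pos]
  refine ⟨?_, ?_, ?_, c4⟩
  · rcases c1 with c1 | c1
    · rw [c1]; simp; positivity
    · have : ((tSL.getD j 0 : ℤ) : ℝ) * 2 ^ 16 ≤ ((tS.getD j 0 : ℤ) : ℝ) - ((tE.getD j 0 : ℤ) : ℝ) := by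
        exact_mod_cast c1
      push_cast at this
      linarith [h2.1]
  · have : ((tS.getD j 0 : ℤ) : ℝ) + ((tE.getD j 0 : ℤ) : ℝ) ≤ ((tSU.getD j 0 : ℤ) : ℝ) * 2 ^ 16 := by
      exact_mod_cast c2
    push_cast at this
    linarith [h2.2]
  · have : ((tCP.getD j 0 : ℤ) : ℝ) * 2 ^ 16 - ((tCM.getD j 0 : ℤ) : ℝ) * 2 ^ 16 ≤
        ((tC.getD j 0 : ℤ) : ℝ) - ((tE.getD j 0 : ℤ) : ℝ) := by
      exact_mod_cast c3
    push_cast at this
    linarith [h1.1]

end Pool.Agent.Helper98.KT
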