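import Pool.Agent.Helper98.KT.Hop
import Pool.Agent.Helper98.KT.Trig32
import Pool.Agent.Helper66.Kiss.Packed

set_option autoImplicit false

/-! # The packed check of the hop constants (33 lanes of 48 bits, angles `j * π / 32`) -/

namespace Pool.Agent.Helper98.KT

open Real Set Pool.Agent.Helper66.Kiss Pool.Agent.Helper66.Kiss.Pk

/-- packed table of lower bounds of sines -/
def vSL : ℕ := 0x645000000000c7c00000000129400000000187d000000001e2b00000000238e000000002899000000002d41000000003178000000003536000000003871000000003b20000000003d3e000000003ec5000000003fb1000000003fff000000003fb1000000003ec5000000003d3e000000003b20000000003871000000003536000000003179000000002d4100000000289900000000238e000000001e2b00000000187d000000001294000000000c7c000000000645000000000000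
/-- packed table of upper bounds of sines -/
def vSU : ℕ := 0x1000000000646000000000c7d00000000129500000000187e000000001e2c00000000238f00000000289a000000002d4200000000317a000000003537000000003872000000003b21000000003d3f000000003ec6000000003fb2000000004001000000003fb2000000003ec6000000003d3f000000003b2100000000387200000000353700000000317a000000002d4200000000289a00000000238f000000001e2c00000000187e000000001295000000000c7d000000000646000000000000
/-- packed table: positive parts of cosines -/
def vCP : ℕ := 0x645000000000c7c00000000129400000000187d000000001e2b00000000238e000000002899000000002d41000000003179000000003536000000003871000000003b20000000003d3e000000003ec5000000003fb1000000004000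
/-- packed table: negative parts of cosines -/
def vCM : ℕ := 0x4001000000003fb2000000003ec6000000003d3f000000003b2100000000387200000000353700000000317a000000002d4200000000289a00000000238f000000001e2c00000000187e000000001295000000000c7d000000000646000000000001000000000000000000000000000000000000000000000000000000000000000000000000000000000000000000000000000000000000000000000000000000000000000000000000000000000000000000000000000000000000000000000000
/-- packed table of `j * sin` -/
def vJS : ℕ := 0xc25b000000017688000000021ac400000002adac000000032e89000000039c6c00000003f6f1000000043e180000000471c80000000492a400000004a145000000049e80000000048b9a0000000469da000000043ac100000003fff000000003bb5f000000036ec6000000031c2600000002c580000000026cdb00000002141c00000001bd41000000016a08000000011c2f00000000d5540000000096d70000000061f40000000037bc0000000018f8000000000645000000000000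
/-- packed ones -/
def vOne : ℕ := 0x1000000000001000000000001000000000001000000000001000000000001000000000001000000000001000000000001000000000001000000000001000000000001000000000001000000000001000000000001000000000001000000000001000000000001000000000001000000000001000000000001000000000001000000000001000000000001000000000001000000000001000000000001000000000001000000000001000000000001000000000001000000000001000000000001
/-- packed `2 ^ 47` -/
def vMask : ℕ := 0x800000000000800000000000800000000000800000000000800000000000800000000000800000000000800000000000800000000000800000000000800000000000800000000000800000000000800000000000800000000000800000000000800000000000800000000000800000000000800000000000800000000000800000000000800000000000800000000000800000000000800000000000800000000000800000000000800000000000800000000000800000000000800000000000800000000000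

lemma vSL_eq : vSL = vec (fun j => tSL.getD j 0) 33 := by decide +kernel
lemma vSU_eq : vSU = vec (fun j => tSU.getD j 0) 33 := by decide +kernel
lemma vCP_eq : vCP = vec (fun j => tCP.getD j 0) 33 := by decide +kernel
lemma vCM_eq : vCM = vec (fun j => tCM.getD j 0) 33 := by decide +kernel
lemma vJS_eq : vJS = vec (fun j => j * tSL.getD j 0) 33 := by decide +kernel
lemma vOne_eq : vOne = vec (fun _ => 1) 33 := by decide +kernel
lemma vMask_eq : vMask = vec (fun _ => 2 ^ 47) 33 := by decide +kernel

lemma tab_le : ∀ j < 33, tSL.getD j 0 ≤ 2 ^ 14 ∧ tSU.getD j 0 ≤ 2 ^ 15 ∧ tCP.getD j 0 ≤ 2 ^ 14 ∧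
    tCM.getD j 0 ≤ 2 ^ 15 := by decide +kernel

/-- first part of the positive side (once per leaf) -/
def hopP (l kl : ℕ) : ℕ := Nat.add vMask (Nat.add (Nat.mul l vJS) (Nat.mul kl vCP))

/-- first part of the negative side (once per leaf) -/
def hopN (ku : ℕ) : ℕ := Nat.mul ku vCM

/-- the check for one touching point; `P = hopP l kl`, `N = hopN ku` -/
def hopChk (P N mp mn cp cn J : ℕ) : Bool :=
  match Nat.mod vMask (Nat.pow 2 (Nat.mul 48 (Nat.succ J))) with
  | 0 => false
  | M + 1 => Nat.beq (Nat.land (Nat.sub (Nat.add P (Nat.add (Nat.mul mp vSL) (Nat.mul cp vOne)))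
      (Nat.add N (Nat.add (Nat.mul mn vSU) (Nat.mul cn vOne)))) (M + 1)) (M + 1)

theorem hopChk_sound {l kl ku mp mn cp cn J : ℕ} (hl : l < 2 ^ 24) (hkl : kl < 2 ^ 24)
    (hku : ku < 2 ^ 24) (hmp : mp < 2 ^ 24) (hmn : mn < 2 ^ 24) (hcp : cp < 2 ^ 45)
    (hcn : cn < 2 ^ 45) (hJ : J ≤ 32) (h : hopChk (hopP l kl) (hopN ku) mp mn cp cn J = true)
    {j : ℕ} (hj : j ≤ J) :
    mn * tSU.getD j 0 + ku * tCM.getD j 0 + cn ≤
      l * (j * tSL.getD j 0) + mp * tSL.getD j 0 + kl * tCP.getD j 0 + cp := by
  set f : ℕ → ℕ := fun j => 2 ^ 47 + (l * (j * tSL.getD j 0) + kl * tCP.getD j 0) +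
    (mp * tSL.getD j 0 + cp * 1) with hf
  set g : ℕ → ℕ := fun j => ku * tCM.getD j 0 + (mn * tSU.getD j 0 + cn * 1) with hg
  have bds : ∀ j < 33, f j < 2 ^ 48 ∧ g j < 2 ^ 47 := by
    intro j hj
    obtain ⟨b1, b2, b3, b4⟩ := tab_le j hj
    have c1 : j * tSL.getD j 0 ≤ 32 * 2 ^ 14 := Nat.mul_le_mul (by omega) b1
    have c2 : l * (j * tSL.getD j 0) ≤ 2 ^ 24 * (32 * 2 ^ 14) := Nat.mul_le_mul hl.le c1
    have c3 : kl * tCP.getD j 0 ≤ 2 ^ 24 * 2 ^ 14 := Nat.mul_le_mul hkl.le b3
    have c4 : mp * tSL.getD j 0 ≤ 2 ^ 24 * 2 ^ 14 := Nat.mul_le_mul hmp.le b1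
    have c5 : ku * tCM.getD j 0 ≤ 2 ^ 24 * 2 ^ 15 := Nat.mul_le_mul hku.le b4
    have c6 : mn * tSU.getD j 0 ≤ 2 ^ 24 * 2 ^ 15 := Nat.mul_le_mul hmn.le b2
    simp only [hf, hg]
    constructor <;> omega
  have eP : Nat.add (hopP l kl) (Nat.add (Nat.mul mp vSL) (Nat.mul cp vOne)) = vec f 33 := by
    show (vMask + (l * vJS + kl * vCP)) + (mp * vSL + cp * vOne) = _
    rw [vMask_eq, vJS_eq, vCP_eq, vSL_eq, vOne_eq, vec_mul, vec_mul, vec_mul, vec_mul, vec_add,
      vec_add, vec_add, vec_add]
  have eN : Nat.add (hopN ku) (Nat.add (Nat.mul mn vSU) (Nat.mul cn vOne)) = vec g 33 := by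
    show ku * vCM + (mn * vSU + cn * vOne) = _
    rw [vCM_eq, vSU_eq, vOne_eq, vec_mul, vec_mul, vec_mul, vec_add, vec_add]
  have eX : vec f 33 - vec g 33 = vec (fun j => f j - g j) 33 := by
    have h1 : vec g 33 + vec (fun j => f j - g j) 33 = vec f 33 := by
      rw [vec_add]
      refine vec_congr fun S hS => ?_
      have := bds S hS
      have h2 : g S ≤ f S := by
        have : 2 ^ 47 ≤ f S := by simp only [hf]; omega
        omega
      show g S + (f S - g S) = f S
      omega
    omega
  unfold hopChk at h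
  rw [eP, eN] at h
  have eM : Nat.mod vMask (Nat.pow 2 (Nat.mul 48 (Nat.succ J))) = vMask % 2 ^ (48 * (J + 1)) := rfl
  rw [eM] at h
  cases hM : vMask % 2 ^ (48 * (J + 1)) with
  | zero => rw [hM] at h; cases h
  | succ M =>
    rw [hM] at h
    simp only at h
    have h1 : (vec f 33 - vec g 33) &&& (M + 1) = M + 1 := Nat.eq_of_beq_eq_true h
    have h2 : ((vec f 33 - vec g 33) &&& (M + 1)).testBit (48 * j + 47) =
        (M + 1).testBit (48 * j + 47) := by rw [h1]
    rw [Nat.testBit_and, eX, vec_testBit (fun S hS => by have := bds S hS; omega) (by omega)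
      (by norm_num), ← hM, Nat.testBit_mod_two_pow, vMask_eq, vec_testBit (fun S _ => by norm_num)
      (by omega) (by norm_num)] at h2
    have e3 : decide (48 * j + 47 < 48 * (J + 1)) = true := by
      rw [decide_eq_true_eq]; omega
    have e4 : (2 ^ 47 : ℕ).testBit 47 = true := by decide
    rw [e3, e4] at h2
    simp only [Bool.and_true] at h2
    have h5 : 2 ^ 47 ≤ f j - g j := Nat.ge_two_pow_of_testBit h2
    simp only [hf, hg] at h5
    omega

lemma pi_sq_le_ten : π ^ 2 ≤ 10 := by nlinarith [Real.pi_lt_d4, Real.pi_gt_d4]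

/-- margin for the grid (in the unit `u / 2 ^ 14`) -/
def hopMarg (l ku mn : ℕ) : ℕ := Nat.add (Nat.mul 403 l) (Nat.mul 20 (Nat.add ku mn))

/-- **The check bounds the rate of the contact.** The slope is `l * u` per angle `π / 32`, the
constant is `(mp - mn) * u`. -/
theorem hopChk_bound {x y κ v u : ℝ} (hu : 0 < u) (hx : -1 < x ∧ x < 0) (hy : -1 < y ∧ y < 1)
    {l kl ku mp mn cp cn J : ℕ} (hl : l < 2 ^ 24) (hkl : kl < 2 ^ 24)
    (hku : ku < 2 ^ 24) (hku0 : 0 < ku) (hmp : mp < 2 ^ 24) (hmn : mn < 2 ^ 24)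
    (hcp : cp < 2 ^ 45) (hcn : cn < 2 ^ 45) (hJ : J ≤ 32)
    (h : hopChk (hopP l kl) (hopN ku) mp mn cp cn J = true)
    (hk1 : (kl : ℝ) * u ≤ κ / (-x)) (hk2 : κ / (-x) ≤ ku * u)
    (hc : ((cp : ℝ) - cn + hopMarg l ku mn) * u ≤ 2 ^ 14 *
      ((-x + y / 2) / (√(1 - x ^ 2) * √(1 - y ^ 2)) * v -
        κ / (-x) * (√(1 - x ^ 2) / (2 * √(1 - y ^ 2)))))
    (hα : wd x y ≤ J * (π / 32)) :
    (RR x y ^ 2 < 1 → rate x y (-κ * (1 - x ^ 2)) (v * (1 - y ^ 2)) ≤
      l * u * (wd x y / (π / 32)) + ((mp : ℝ) - mn) * u) ∧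
      (RR x y ^ 2 = 1 → nr x y (-κ * (1 - x ^ 2)) (v * (1 - y ^ 2)) < 0) := by
  have hi0 : ∀ j ≤ J, mn * tSU.getD j 0 + ku * tCM.getD j 0 + cn ≤
      l * (j * tSL.getD j 0) + mp * tSL.getD j 0 + kl * tCP.getD j 0 + cp := fun j hj =>
    hopChk_sound hl hkl hku hmp hmn hcp hcn hJ h hj
  clear h hl hkl hku hmp hmn hcp hcn
  have hpi := Real.pi_pos
  have hpi2 := pi_sq_le_ten
  set hh : ℝ := π / 32 with hhd
  have hh0 : 0 < hh := by positivity
  set lam : ℝ := l * u / hh with hlam
  set mu : ℝ := ((mp : ℝ) - mn) * u with hmu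
  have hlam0 : 0 ≤ lam := by positivity
  set k := κ / (-x) with hk
  have hk0 : 0 ≤ k := le_trans (by positivity) hk1
  set c := (-x + y / 2) / (√(1 - x ^ 2) * √(1 - y ^ 2)) * v -
        k * (√(1 - x ^ 2) / (2 * √(1 - y ^ 2))) with hcd
  set M : ℝ := 2 * lam + (ku + mn) * u with hMd
  have hM0 : 0 < M := by
    have h1 : (0 : ℝ) < ku := by exact_mod_cast hku0
    have h2 : (0 : ℝ) ≤ mn := Nat.cast_nonneg _
    have : 0 < (ku + mn : ℝ) * u := by positivity
    linarith
  have hJr : (J : ℝ) * hh ≤ π := by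
    have : (J : ℝ) ≤ 32 := by exact_mod_cast hJ
    rw [hhd]; nlinarith
  have key := hop_bound (κ := κ) (v := v) (lam := lam) (mu := mu) (M := M) (h := hh) (J := J)
    hx hy hh0 hM0 hJr ?_ ?_ hα
  · obtain ⟨k1, k2⟩ := key
    refine ⟨fun hR => ?_, k2⟩
    have := k1 hR
    rw [hlam] at this
    calc _ ≤ _ := this
      _ = _ := by ring
  · intro t ht
    have ht0 : 0 ≤ t := ht.1
    have ht1 : t ≤ π := ht.2.trans hJr
    have hs0 : 0 ≤ sin t := sin_nonneg_of_nonneg_of_le_pi ht0 ht1
    have hs1 := sin_le_one t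
    have hc1 := cos_le_one t
    have hc2 := neg_one_le_cos t
    have e1 : 2 * lam * cos t ≤ 2 * lam := by nlinarith
    have e2 : 0 ≤ lam * t * sin t := by positivity
    have e3 : -(mu * sin t) ≤ mn * u := by
      have h1 : (0 : ℝ) ≤ mp := Nat.cast_nonneg _
      have h2 : (0 : ℝ) ≤ mn := Nat.cast_nonneg _
      have h3 : (mn : ℝ) * u * sin t ≤ mn * u := mul_le_of_le_one_right (by positivity) hs1
      have h4 : 0 ≤ (mp : ℝ) * u * sin t := by positivity
      rw [hmu]; nlinarith
    have e4 : -(k * cos t) ≤ ku * u := by nlinarith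
    rw [hMd]; nlinarith
  · intro j hj
    have hj32 : j ≤ 32 := hj.trans hJ
    obtain ⟨t1, t2, t3, t4⟩ := trig_tables hj32
    have hi := hi0 j hj
    have hir : (mn : ℝ) * tSU.getD j 0 + ku * tCM.getD j 0 + cn ≤
        l * (j * tSL.getD j 0) + mp * tSL.getD j 0 + kl * tCP.getD j 0 + cp := by exact_mod_cast hi
    rw [← hhd] at t1 t2 t3
    set th : ℝ := j * hh with hth
    set SL : ℝ := (tSL.getD j 0 : ℝ)
    set SU : ℝ := (tSU.getD j 0 : ℝ)
    set CP : ℝ := (tCP.getD j 0 : ℝ) with hCP
    set CM : ℝ := (tCM.getD j 0 : ℝ) with hCM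
    have hCP0 : 0 ≤ CP := Nat.cast_nonneg _
    have hCM0 : 0 ≤ CM := Nat.cast_nonneg _
    have e0 : lam * th = l * u * j := by
      rw [hlam, hth]; field_simp
    have e1 : (l : ℝ) * u * j * SL ≤ l * u * j * (2 ^ 14 * sin th) :=
      mul_le_mul_of_nonneg_left t1 (by positivity)
    have e2 : (mp : ℝ) * u * SL ≤ mp * u * (2 ^ 14 * sin th) :=
      mul_le_mul_of_nonneg_left t1 (by positivity)
    have e3 : (mn : ℝ) * u * (2 ^ 14 * sin th) ≤ mn * u * SU :=
      mul_le_mul_of_nonneg_left t2 (by positivity)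
    have e4 : (kl : ℝ) * u * CP - ku * u * CM ≤ k * (2 ^ 14 * cos th) := by
      have h1 : k * (CP - CM) ≤ k * (2 ^ 14 * cos th) := mul_le_mul_of_nonneg_left t3 hk0
      have h2 : (kl : ℝ) * u * CP ≤ k * CP := mul_le_mul_of_nonneg_right hk1 hCP0
      have h3 : k * CM ≤ ku * u * CM := mul_le_mul_of_nonneg_right hk2 hCM0
      nlinarith
    have e5 : M * hh ^ 2 / 8 * 2 ^ 14 ≤ (hopMarg l ku mn : ℝ) * u := by
      have h1 : (hopMarg l ku mn : ℝ) = 403 * l + 20 * (ku + mn) := by
        show ((403 * l + 20 * (ku + mn) : ℕ) : ℝ) = _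
        push_cast; ring
      have h2 : M * hh ^ 2 / 8 * 2 ^ 14 = l * u * (hh / 4 * 2 ^ 14) +
          (ku + mn) * u * (hh ^ 2 / 8 * 2 ^ 14) := by
        rw [hMd, hlam]; field_simp; ring
      have h3 : hh / 4 * 2 ^ 14 ≤ 403 := by
        rw [hhd]; nlinarith [Real.pi_lt_d4]
      have h4 : hh ^ 2 / 8 * 2 ^ 14 ≤ 20 := by
        rw [hhd]; nlinarith
      rw [h1, h2]
      have h5 : (l : ℝ) * u * (hh / 4 * 2 ^ 14) ≤ l * u * 403 :=
        mul_le_mul_of_nonneg_left h3 (by positivity)
      have h6 : ((ku : ℝ) + mn) * u * (hh ^ 2 / 8 * 2 ^ 14) ≤ (ku + mn) * u * 20 :=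
        mul_le_mul_of_nonneg_left h4 (by positivity)
      nlinarith
    have e6 : 0 ≤ u * (l * (j * SL) + mp * SL + kl * CP + cp - (mn * SU + ku * CM + cn)) :=
      mul_nonneg hu.le (by linarith)
    show M * hh ^ 2 / 8 ≤ GG lam mu k c th
    unfold GG
    rw [e0]
    have e7 : M * hh ^ 2 / 8 * 2 ^ 14 ≤ ((l * u * j + mu) * sin th + k * cos th + c) * 2 ^ 14 := by
      rw [hmu]
      nlinarith
    linarith

end Pool.Agent.Helper98.KT
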