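import Pool.Agent.Helper98.KT.SPReal

set_option autoImplicit false

/-! # The south point in the coordinate `t`: bounds of the contact angle over a cell -/

namespace Pool.Agent.Helper98.KT

open Real Set Pool.Agent.Helper66.Kiss

/-- the numerator `N` of `2 √(1 - y²) RR (zs t) y` -/
noncomputable def Nt (t y : ℝ) : ℝ := (1 / 2 + y) / t + t * (1 / 2 - y)

lemma RR_zs' {t y : ℝ} (h0 : 0 < t) (h1 : t < 1) : RR (zs t) y = Nt t y / (2 * √(1 - y ^ 2)) :=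
  RR_zs h0 h1

lemma Nt_mono_y {t y y' : ℝ} (h0 : 0 < t) (h1 : t < 1) (h : y ≤ y') : Nt t y ≤ Nt t y' := by
  unfold Nt
  have e : (1 / 2 + y') / t + t * (1 / 2 - y') - ((1 / 2 + y) / t + t * (1 / 2 - y)) =
      (y' - y) * (1 / t - t) := by field_simp; ring
  have h2 : 0 ≤ 1 / t - t := by
    rw [sub_nonneg, le_div_iff₀ h0]; nlinarith
  have := mul_nonneg (sub_nonneg.2 h) h2
  linarith

/-- shallow: lower bound of `N` over a cell, general form -/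
lemma Nt_low {t t1 t2 y y1 : ℝ} (h0 : 0 ≤ t1) (ht1 : t1 ≤ t) (ht0 : 0 < t) (ht2 : t ≤ t2) (h1 : t < 1)
    (hy1 : -(1 / 2) ≤ y1) (hy1' : y1 ≤ 1 / 2) (hy : y1 ≤ y) :
    (1 / 2 + y1) / t2 + t1 * (1 / 2 - y1) ≤ Nt t y := by
  refine le_trans ?_ (Nt_mono_y ht0 h1 hy)
  unfold Nt
  have h2 : (1 / 2 + y1) / t2 ≤ (1 / 2 + y1) / t :=
    div_le_div_of_nonneg_left (by linarith) ht0 ht2
  have h3 : t1 * (1 / 2 - y1) ≤ t * (1 / 2 - y1) :=
    mul_le_mul_of_nonneg_right ht1 (by linarith)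
  linarith

/-- shallow: `N` decreasing in `t` -/
lemma Nt_low' {t t2 y y1 : ℝ} (ht0 : 0 < t) (ht2 : t ≤ t2) (h1 : t < 1)
    (hy1' : y1 ≤ 1 / 2) (hy : y1 ≤ y) (hc : t2 ^ 2 * (1 / 2 - y1) ≤ 1 / 2 + y1) :
    Nt t2 y1 ≤ Nt t y := by
  refine le_trans ?_ (Nt_mono_y ht0 h1 hy)
  unfold Nt
  have ht2' : 0 < t2 := lt_of_lt_of_le ht0 ht2
  have e : (1 / 2 + y1) / t + t * (1 / 2 - y1) - ((1 / 2 + y1) / t2 + t2 * (1 / 2 - y1)) =
      (t2 - t) / (t * t2) * ((1 / 2 + y1) - t * t2 * (1 / 2 - y1)) := by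
    field_simp; ring
  have h2 : 0 ≤ (1 / 2 + y1) - t * t2 * (1 / 2 - y1) := by
    have h3 : t * t2 ≤ t2 ^ 2 := by nlinarith
    have h4 : t * t2 * (1 / 2 - y1) ≤ t2 ^ 2 * (1 / 2 - y1) :=
      mul_le_mul_of_nonneg_right h3 (by linarith)
    linarith
  have h5 : 0 ≤ (t2 - t) / (t * t2) := div_nonneg (by linarith) (by positivity)
  have := mul_nonneg h5 h2
  linarith

/-- deep: `N` increasing in `t` -/
lemma Nt_low_deep {t t1 y y1 : ℝ} (h0 : 0 < t1) (ht1 : t1 ≤ t) (h1 : t < 1)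
    (hy1 : y1 ≤ -(1 / 2)) (hy : y1 ≤ y) : Nt t1 y1 ≤ Nt t y := by
  have ht0 : 0 < t := lt_of_lt_of_le h0 ht1
  refine le_trans ?_ (Nt_mono_y ht0 h1 hy)
  unfold Nt
  have e : (1 / 2 + y1) / t + t * (1 / 2 - y1) - ((1 / 2 + y1) / t1 + t1 * (1 / 2 - y1)) =
      (t - t1) * ((1 / 2 - y1) - (1 / 2 + y1) / (t * t1)) := by
    field_simp; ring
  have h2 : (1 / 2 + y1) / (t * t1) ≤ 0 := div_nonpos_of_nonpos_of_nonneg (by linarith) (by positivity)
  have := mul_nonneg (sub_nonneg.2 ht1) (by linarith : 0 ≤ (1 / 2 - y1) - (1 / 2 + y1) / (t * t1))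
  linarith

/-- `RR` is increasing in the height (shallow part) -/
lemma RR_zs_mono {t y y' : ℝ} (h0 : 0 < t) (ht : t ^ 2 ≤ 1 / 20) (hy : -(1 / 2) ≤ y) (h : y ≤ y')
    (hy' : y' ≤ 1 / 2) : Nt t y / √(1 - y ^ 2) ≤ Nt t y' / √(1 - y' ^ 2) := by
  set a := (1 / t + t) / 2 with ha
  set b := 1 / t - t with hb
  have e : ∀ w, Nt t w = a + b * w := by
    intro w; unfold Nt; rw [ha, hb]; field_simp; ring
  have hti : 0 < 1 / t := by positivity
  have ht1 : t ≤ 1 / t / 20 := by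
    rw [div_div, le_div_iff₀ (by positivity)]; nlinarith
  rw [e, e]
  refine frac_mono ⟨by linarith, by linarith⟩ ⟨by linarith, by linarith⟩ h ?_ ?_ ?_
  · rw [← e]; unfold Nt
    have : 0 ≤ (1 / 2 + y) / t := div_nonneg (by linarith) h0.le
    have h2 : 0 ≤ t * (1 / 2 - y) := mul_nonneg h0.le (by linarith)
    linarith
  · rw [hb]; linarith
  · have ha0 : 0 ≤ a - b / 2 := by rw [ha, hb]; linarith
    have hb0 : 0 ≤ 2 * b - a := by rw [ha, hb]; linarith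
    have hbp : 0 ≤ b := by rw [hb]; linarith
    have hap : 0 ≤ a := by linarith
    have p1 : 0 ≤ y + 1 / 2 := by linarith
    have p2 : 0 ≤ y' + 1 / 2 := by linarith
    have e : (a ^ 2 + b ^ 2) * (y + y') + 2 * a * b * (1 + y * y') =
      (a - b / 2) * (2 * b - a) + (a ^ 2 + b ^ 2 - a * b) * ((y + 1 / 2) + (y' + 1 / 2)) +
        2 * a * b * ((y + 1 / 2) * (y' + 1 / 2)) := by ring
    rw [e]
    have q1 : 0 ≤ a ^ 2 + b ^ 2 - a * b := by nlinarith [sq_nonneg (a - b)]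
    positivity

end Pool.Agent.Helper98.KT
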