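import Pool.Agent.Helper66.Kiss.LLEdge

set_option autoImplicit false

/-! # The south point in the coordinate `t = tan (tilt / 2)` : real lemmas -/

namespace Pool.Agent.Helper98.KT

open Real Set Pool.Agent.Helper66.Kiss

/-- the height of the south point -/
noncomputable def zs (t : ℝ) : ℝ := -((1 - t ^ 2) / (1 + t ^ 2))

lemma zs_mem {t : ℝ} (h0 : 0 < t) (h1 : t < 1) : -1 < zs t ∧ zs t < 0 := by
  have h2 : 0 < 1 + t ^ 2 := by positivity
  have h3 : 0 < 1 - t ^ 2 := by nlinarith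
  unfold zs
  constructor
  · rw [neg_lt_neg_iff, div_lt_one h2]; nlinarith
  · rw [neg_lt_zero]; positivity

lemma sqrt_zs {t : ℝ} (h0 : 0 ≤ t) : √(1 - zs t ^ 2) = 2 * t / (1 + t ^ 2) := by
  have h2 : 0 < 1 + t ^ 2 := by positivity
  rw [Real.sqrt_eq_iff_mul_self_eq (by
    unfold zs
    rw [neg_sq, div_pow, sub_nonneg, div_le_one (by positivity)]
    nlinarith [sq_nonneg t]) (by positivity)]
  unfold zs
  field_simp
  ring

/-- every height in `(-1, 0)` is of this form -/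
lemma exists_t {x : ℝ} (hx : -1 < x) (hx0 : x < 0) : ∃ t, 0 < t ∧ t < 1 ∧ zs t = x ∧
    t = √((1 + x) / (1 - x)) := by
  have h1 : 0 < (1 + x) / (1 - x) := by apply div_pos <;> linarith
  refine ⟨√((1 + x) / (1 - x)), Real.sqrt_pos.2 h1, ?_, ?_, rfl⟩
  · rw [Real.sqrt_lt' one_pos, div_lt_iff₀ (by linarith)]; linarith
  · unfold zs
    rw [Real.sq_sqrt h1.le]
    have : 1 - x ≠ 0 := by linarith
    field_simp
    ring

lemma RR_zs {t y : ℝ} (h0 : 0 < t) (h1 : t < 1) :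
    RR (zs t) y = ((1 / 2 + y) / t + t * (1 / 2 - y)) / (2 * √(1 - y ^ 2)) := by
  unfold RR
  rw [sqrt_zs h0.le]
  unfold zs
  have h2 : 0 < 1 + t ^ 2 := by positivity
  field_simp
  ring

/-- the coefficient `g` -/
noncomputable def gt (t y : ℝ) : ℝ := (2 * (1 - t ^ 2) + (1 + t ^ 2) * y) / (4 * t * √(1 - y ^ 2))

lemma g_zs {t y : ℝ} (h0 : 0 < t) (h1 : t < 1) :
    (-zs t + y / 2) / (√(1 - zs t ^ 2) * √(1 - y ^ 2)) = gt t y := by
  rw [sqrt_zs h0.le]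
  unfold zs gt
  have h2 : 0 < 1 + t ^ 2 := by positivity
  rcases eq_or_ne (√(1 - y ^ 2)) 0 with h | h
  · rw [h]; simp
  field_simp
  ring

lemma ks_zs {t y κ : ℝ} (h0 : 0 < t) (h1 : t < 1) :
    κ / (-zs t) * (√(1 - zs t ^ 2) / (2 * √(1 - y ^ 2))) = κ * (t / (1 - t ^ 2)) / √(1 - y ^ 2) := by
  rw [sqrt_zs h0.le]
  unfold zs
  have h2 : 0 < 1 + t ^ 2 := by positivity
  have h3 : 0 < 1 - t ^ 2 := by nlinarith
  rcases eq_or_ne (√(1 - y ^ 2)) 0 with h | h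
  · rw [h]; simp
  field_simp

lemma k_zs {t κ : ℝ} (h0 : 0 < t) (h1 : t < 1) :
    κ / (-zs t) = κ * ((1 + t ^ 2) / (1 - t ^ 2)) := by
  unfold zs
  have h2 : 0 < 1 + t ^ 2 := by positivity
  have h3 : 0 < 1 - t ^ 2 := by nlinarith
  field_simp

/-! ### monotonicity of `g` -/

lemma gt_anti {t t' y : ℝ} (h0 : 0 < t) (h : t ≤ t') (hy : -1 < y ∧ y < 1) :
    gt t' y ≤ gt t y := by
  have hy2 : 0 < 1 - y ^ 2 := by nlinarith [hy.1, hy.2]
  have hs : 0 < √(1 - y ^ 2) := Real.sqrt_pos.2 hy2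
  have h0' : 0 < t' := by linarith
  unfold gt
  rw [div_le_div_iff₀ (by positivity) (by positivity)]
  have e : (2 * (1 - t ^ 2) + (1 + t ^ 2) * y) * (4 * t' * √(1 - y ^ 2)) -
      (2 * (1 - t' ^ 2) + (1 + t' ^ 2) * y) * (4 * t * √(1 - y ^ 2)) =
      4 * √(1 - y ^ 2) * ((t' - t) * ((2 + y) + t * t' * (2 - y))) := by ring
  have h5 : 0 ≤ 4 * √(1 - y ^ 2) * ((t' - t) * ((2 + y) + t * t' * (2 - y))) := by
    have h6 : 0 ≤ t' - t := by linarith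
    have h7 : 0 ≤ (2 + y) + t * t' * (2 - y) := by
      have h8 : 0 ≤ t * t' * (2 - y) := mul_nonneg (by positivity) (by linarith [hy.2])
      linarith [hy.1]
    positivity
  linarith

/-- comparison of `(a + b y) / √(1 - y²)` -/
lemma frac_mono {a b y y' : ℝ} (hy : -1 < y ∧ y < 1) (hy' : -1 < y' ∧ y' < 1) (h : y ≤ y')
    (ha : 0 ≤ a + b * y) (hb : 0 ≤ b)
    (hbr : 0 ≤ (a ^ 2 + b ^ 2) * (y + y') + 2 * a * b * (1 + y * y')) :
    (a + b * y) / √(1 - y ^ 2) ≤ (a + b * y') / √(1 - y' ^ 2) := by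
  have hy2 : 0 < 1 - y ^ 2 := by nlinarith [hy.1, hy.2]
  have hy2' : 0 < 1 - y' ^ 2 := by nlinarith [hy'.1, hy'.2]
  have hs : 0 < √(1 - y ^ 2) := Real.sqrt_pos.2 hy2
  have hs' : 0 < √(1 - y' ^ 2) := Real.sqrt_pos.2 hy2'
  have ha' : 0 ≤ a + b * y' := by nlinarith
  rw [div_le_div_iff₀ hs hs']
  refine (le_abs_self _).trans (abs_le_of_sq_le_sq ?_ (by positivity))
  · rw [mul_pow, mul_pow, Real.sq_sqrt hy2.le, Real.sq_sqrt hy2'.le]
    have e : (a + b * y') ^ 2 * (1 - y ^ 2) - (a + b * y) ^ 2 * (1 - y' ^ 2) =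
      (y' - y) * ((a ^ 2 + b ^ 2) * (y + y') + 2 * a * b * (1 + y * y')) := by ring
    have := mul_nonneg (sub_nonneg.2 h) hbr
    linarith

lemma gt_mono {t y y' : ℝ} (h0 : 0 < t) (ht : t ^ 2 ≤ 1 / 20) (hy : -(1 / 2) ≤ y) (h : y ≤ y')
    (hy' : y' < 1) : gt t y ≤ gt t y' := by
  have key : (2 * (1 - t ^ 2) + (1 + t ^ 2) * y) / √(1 - y ^ 2) ≤
      (2 * (1 - t ^ 2) + (1 + t ^ 2) * y') / √(1 - y' ^ 2) := by
    refine frac_mono ⟨by linarith, by linarith⟩ ⟨by linarith, hy'⟩ h ?_ (by positivity) ?_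
    · nlinarith [sq_nonneg t]
    · set a := 2 * (1 - t ^ 2) with ha
      set b := 1 + t ^ 2 with hb
      have ha0 : 0 ≤ a - b / 2 := by rw [ha, hb]; nlinarith
      have hb0 : 0 ≤ 2 * b - a := by rw [ha, hb]; nlinarith [sq_nonneg t]
      have hbp : 0 ≤ b := by positivity
      have hap : 0 ≤ a := by linarith
      have p1 : 0 ≤ y + 1 / 2 := by linarith
      have p2 : 0 ≤ y' + 1 / 2 := by linarith
      have e : (a ^ 2 + b ^ 2) * (y + y') + 2 * a * b * (1 + y * y') =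
        (a - b / 2) * (2 * b - a) + (a ^ 2 + b ^ 2 - a * b) * ((y + 1 / 2) + (y' + 1 / 2)) +
          2 * a * b * ((y + 1 / 2) * (y' + 1 / 2)) := by ring
      rw [e]
      have q1 : 0 ≤ a ^ 2 + b ^ 2 - a * b := by nlinarith [sq_nonneg (a - b)]
      positivity
  have e : ∀ w : ℝ, gt t w = (2 * (1 - t ^ 2) + (1 + t ^ 2) * w) / √(1 - w ^ 2) / (4 * t) := by
    intro w
    unfold gt
    rw [div_div, mul_comm (√(1 - w ^ 2))]
  rw [e, e]
  exact div_le_div_of_nonneg_right key (by positivity)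

/-- the minimum of `g` over all heights -/
lemma gt_min {t y : ℝ} (h0 : 0 < t) (ht : t ^ 2 ≤ 1 / 20) (hy : -1 < y ∧ y < 1) :
    (433 / 250 - 231 / 50 * t ^ 2) * (1 + t ^ 2) / (4 * t) ≤ gt t y := by
  have hy2 : 0 < 1 - y ^ 2 := by nlinarith [hy.1, hy.2]
  have hs : 0 < √(1 - y ^ 2) := Real.sqrt_pos.2 hy2
  have key : (433 / 250 - 231 / 50 * t ^ 2) * (1 + t ^ 2) ≤
      (2 * (1 - t ^ 2) + (1 + t ^ 2) * y) / √(1 - y ^ 2) := by
    rw [le_div_iff₀ hs]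
    set a := 2 * (1 - t ^ 2) with ha
    set b := 1 + t ^ 2 with hb
    have hab : 0 ≤ a + b * y := by
      rw [ha, hb]; nlinarith [sq_nonneg t, hy.1]
    refine (le_abs_self _).trans (abs_le_of_sq_le_sq ?_ hab)
    rw [mul_pow, Real.sq_sqrt hy2.le]
    have h1 : (a ^ 2 - b ^ 2) * (1 - y ^ 2) ≤ (a + b * y) ^ 2 := by
      nlinarith [sq_nonneg (b + a * y)]
    have h2 : ((433 / 250 - 231 / 50 * t ^ 2) * b) ^ 2 ≤ a ^ 2 - b ^ 2 := by
      rw [ha, hb]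
      set q := t ^ 2 with hq
      have hq0 : 0 ≤ q := by positivity
      nlinarith [mul_nonneg hq0 hq0, mul_nonneg (mul_nonneg hq0 hq0) hq0, mul_nonneg hq0 (sub_nonneg.2 ht),
        mul_nonneg (mul_nonneg hq0 hq0) (sub_nonneg.2 ht)]
    calc _ ≤ (a ^ 2 - b ^ 2) * (1 - y ^ 2) := mul_le_mul_of_nonneg_right h2 hy2.le
      _ ≤ _ := h1
  have e : gt t y = (2 * (1 - t ^ 2) + (1 + t ^ 2) * y) / √(1 - y ^ 2) / (4 * t) := by
    unfold gt
    rw [div_div, mul_comm (√(1 - y ^ 2))]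
  rw [e]
  exact div_le_div_of_nonneg_right key (by positivity)

end Pool.Agent.Helper98.KT
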