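import Pool.Agent.Helper98.KT.Tree

set_option autoImplicit false

/-! # Decoding of token streams and assembly of certified boxes -/

namespace Pool.Agent.Helper98.KT

/-- `2^j` digits of `b` bits each of `n`, prepended to `acc` -/
def decPow (b : ℕ) : ℕ → ℕ → List ℕ → List ℕ
  | 0, n, acc => n :: acc
  | j + 1, n, acc =>
      decPow b j (Nat.mod n (Nat.pow 2 (Nat.mul b (Nat.pow 2 j))))
        (decPow b j (Nat.shiftRight n (Nat.mul b (Nat.pow 2 j))) acc)

/-- inclusion of boxes of the same length -/
def subB : Box → Box → Bool
  | [], [] => true
  | p :: B, q :: C => and (and (Nat.ble q.1 p.1) (Nat.ble p.2 q.2)) (subB B C)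
  | _, _ => false

lemma mem_subB {x : ℕ → ℝ} {B C : Box} (h : subB B C = true) (hx : Mem x B) : Mem x C := by
  induction B generalizing x C with
  | nil => cases C with
    | nil => exact mem_nil x
    | cons q C => simp [subB] at h
  | cons p B ih => cases C with
    | nil => simp [subB] at h
    | cons q C =>
      simp only [subB, Bool.and_eq_true, Nat.ble_eq] at h
      rw [mem_cons] at hx ⊢
      have h1 : (q.1 : ℝ) ≤ p.1 := by exact_mod_cast h.1.1
      have h2 : (p.2 : ℝ) ≤ q.2 := by exact_mod_cast h.1.2
      exact ⟨⟨h1.trans hx.1.1, hx.1.2.trans h2⟩, ih h.2 hx.2⟩

lemma cert_subB {P : (ℕ → ℝ) → Prop} {B C : Box} (h : subB B C = true) (hC : Cert P C) :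
    Cert P B := fun x hx => hC x (mem_subB h hx)

/-- the leaf of the assembly: the box must be contained in the next one of the list -/
def topL (s : List ℕ) : List Box → Box → Option (List ℕ × List Box)
  | [], _ => none
  | C :: L', B => match subB B C with
      | true => some (s, L')
      | false => none

/-- Assembly: tokens `k < 64` split coordinate `k` at the midpoint, another token says that the
current box is contained in the next box of the list. -/
def top : ℕ → List ℕ → List Box → Box → Option (List ℕ × List Box)
  | 0, _, _, _ => none
  | _ + 1, [], _, _ => none
  | f + 1, t :: s, L, B =>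
      match Nat.ble 64 t with
      | true => topL s L B
      | false => match halves t B with
        | (B1, B2) => match top f s L B1 with
          | none => none
          | some (s', L') => top f s' L' B2

theorem top_sound {P : (ℕ → ℝ) → Prop} : ∀ f s L B r, (∀ C ∈ L, Cert P C) →
    top f s L B = some r → Cert P B ∧ ∀ C ∈ r.2, Cert P C := by
  intro f
  induction f with
  | zero => intro s L B r _ h; cases h
  | succ f ih =>
    intro s L B r hL h
    cases s with
    | nil => cases h
    | cons t s =>
      have e : top (f + 1) (t :: s) L B = (match Nat.ble 64 t with
        | true => topL s L B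
        | false => match halves t B with
          | (B1, B2) => match top f s L B1 with
            | none => none
            | some (s', L') => top f s' L' B2) := rfl
      rw [e] at h
      cases hb : Nat.ble 64 t with
      | true =>
        rw [hb] at h
        simp only at h
        cases L with
        | nil => cases h
        | cons C L' =>
          have e2 : topL s (C :: L') B = (match subB B C with
            | true => some (s, L')
            | false => none) := rfl
          rw [e2] at h
          cases hs : subB B C with
          | false => rw [hs] at h; cases h
          | true =>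
            rw [hs] at h
            simp only [Option.some.injEq] at h
            subst h
            exact ⟨cert_subB hs (hL C (by simp)), fun D hD => hL D (by simp [hD])⟩
      | false =>
        rw [hb, halves_eq] at h
        simp only at h
        cases h1 : top f s L (cutHi (mid t B) t B) with
        | none => rw [h1] at h; cases h
        | some q =>
          rw [h1] at h
          obtain ⟨s', L'⟩ := q
          simp only at h
          have h2 := ih _ _ _ _ hL h1
          have h3 := ih _ _ _ _ h2.2 h
          exact ⟨cert_cut (mid t B) t h2.1 h3.1, h3.2⟩

/-- the form to be used -/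
theorem top_cert {P : (ℕ → ℝ) → Prop} {f : ℕ} {s : List ℕ} {L : List Box} {B : Box}
    (hL : ∀ C ∈ L, Cert P C) (h : (top f s L B).isSome = true) : Cert P B := by
  obtain ⟨r, hr⟩ := Option.isSome_iff_exists.1 h
  exact (top_sound f s L B r hL hr).1

theorem run_cert {leaf : ℕ → List ℕ → Box → Option (List ℕ)} {P : (ℕ → ℝ) → Prop}
    (hleaf : ∀ t s B s', leaf t s B = some s' → Cert P B) {f : ℕ} {s : List ℕ} {B : Box}
    (h : (run leaf f s B).isSome = true) : Cert P B := by
  obtain ⟨r, hr⟩ := Option.isSome_iff_exists.1 h
  exact run_sound hleaf f s B r hr

end Pool.Agent.Helper98.KT
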