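import Mathlib

set_option autoImplicit false

/-! # Generic box trees (branch and bound certificates) for the kernel

A box is a list of pairs `(lo, hi)` of natural numbers; a real point is a function `x : ℕ → ℝ`
(coordinate `k` in the integer unit of the box). A certificate is a stream of tokens in preorder.
-/

namespace Pool.Agent.Helper98.KT

/-- boxes -/
abbrev Box := List (ℕ × ℕ)

/-- the point `x` lies in the closed box `B` -/
def Mem (x : ℕ → ℝ) (B : Box) : Prop :=
  ∀ k < B.length, ((B.getD k (0, 0)).1 : ℝ) ≤ x k ∧ x k ≤ ((B.getD k (0, 0)).2 : ℝ)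

/-- replace the upper end of coordinate `k` by `c` -/
def cutHi (c : ℕ) : ℕ → Box → Box
  | _, [] => []
  | 0, p :: B => (p.1, c) :: B
  | k + 1, p :: B => p :: cutHi c k B

/-- replace the lower end of coordinate `k` by `c` -/
def cutLo (c : ℕ) : ℕ → Box → Box
  | _, [] => []
  | 0, p :: B => (c, p.2) :: B
  | k + 1, p :: B => p :: cutLo c k B

/-- midpoint of coordinate `k` -/
def mid : ℕ → Box → ℕ
  | _, [] => 0
  | 0, p :: _ => Nat.div (Nat.add p.1 p.2) 2
  | k + 1, _ :: B => mid k B

lemma mem_nil (x : ℕ → ℝ) : Mem x [] := by
  intro k hk; simp at hk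

lemma mem_cons {x : ℕ → ℝ} {p : ℕ × ℕ} {B : Box} :
    Mem x (p :: B) ↔ ((p.1 : ℝ) ≤ x 0 ∧ x 0 ≤ p.2) ∧ Mem (fun k => x (k + 1)) B := by
  constructor
  · intro h
    refine ⟨by simpa using h 0 (by simp), fun k hk => ?_⟩
    simpa using h (k + 1) (by simpa using hk)
  · rintro ⟨h0, h⟩ k hk
    cases k with
    | zero => simpa using h0
    | succ k => simpa using h k (by simpa using hk)

lemma mem_cutHi {x : ℕ → ℝ} {c k : ℕ} {B : Box} (h : Mem x B) (hc : x k ≤ c) :
    Mem x (cutHi c k B) := by
  induction B generalizing x k with
  | nil => cases k <;> exact mem_nil x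
  | cons p B ih =>
    rw [mem_cons] at h
    cases k with
    | zero => exact mem_cons.2 ⟨⟨h.1.1, hc⟩, h.2⟩
    | succ k => exact mem_cons.2 ⟨h.1, ih h.2 hc⟩

lemma mem_cutLo {x : ℕ → ℝ} {c k : ℕ} {B : Box} (h : Mem x B) (hc : (c : ℝ) ≤ x k) :
    Mem x (cutLo c k B) := by
  induction B generalizing x k with
  | nil => cases k <;> exact mem_nil x
  | cons p B ih =>
    rw [mem_cons] at h
    cases k with
    | zero => exact mem_cons.2 ⟨⟨hc, h.1.2⟩, h.2⟩
    | succ k => exact mem_cons.2 ⟨h.1, ih h.2 hc⟩

/-- a box is certified for the property `P` -/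
def Cert (P : (ℕ → ℝ) → Prop) (B : Box) : Prop := ∀ x, Mem x B → P x

lemma cert_cut {P : (ℕ → ℝ) → Prop} {B : Box} (c k : ℕ) (h1 : Cert P (cutHi c k B))
    (h2 : Cert P (cutLo c k B)) : Cert P B := by
  intro x hx
  rcases le_total (x k) (c : ℝ) with h | h
  · exact h1 x (mem_cutHi hx h)
  · exact h2 x (mem_cutLo hx h)

/-- the two halves of a box in direction `k`, at the midpoint -/
def halves : ℕ → Box → Box × Box
  | _, [] => ([], [])
  | 0, p :: B => match Nat.div (Nat.add p.1 p.2) 2 with
      | 0 => ((p.1, 0) :: B, (0, p.2) :: B)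
      | m + 1 => ((p.1, m + 1) :: B, (m + 1, p.2) :: B)
  | k + 1, p :: B => match halves k B with
      | (L, R) => (p :: L, p :: R)

lemma halves_eq (k : ℕ) (B : Box) : halves k B = (cutHi (mid k B) k B, cutLo (mid k B) k B) := by
  induction B generalizing k with
  | nil => cases k <;> rfl
  | cons p B ih =>
    cases k with
    | zero =>
      show (match Nat.div (Nat.add p.1 p.2) 2 with
        | 0 => (((p.1, 0) :: B, (0, p.2) :: B) : Box × Box)
        | m + 1 => ((p.1, m + 1) :: B, (m + 1, p.2) :: B)) =
        ((p.1, Nat.div (Nat.add p.1 p.2) 2) :: B, (Nat.div (Nat.add p.1 p.2) 2, p.2) :: B)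
      generalize Nat.div (Nat.add p.1 p.2) 2 = m
      cases m <;> rfl
    | succ k =>
      show (match halves k B with | (L, R) => ((p :: L, p :: R) : Box × Box)) = _
      rw [ih k]
      rfl

/-- The runner. Stream of tokens `List ℕ`; token `k < 64` splits coordinate `k` at the midpoint,
a larger token is passed to the leaf function (together with the rest of the stream). The fuel is
the depth of the tree. -/
def run (leaf : ℕ → List ℕ → Box → Option (List ℕ)) : ℕ → List ℕ → Box → Option (List ℕ)
  | 0, _, _ => none
  | _ + 1, [], _ => none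
  | f + 1, t :: s, B =>
      match Nat.ble 64 t with
      | true => leaf t s B
      | false => match halves t B with
        | (L, R) => match run leaf f s L with
          | none => none
          | some s' => run leaf f s' R

theorem run_sound {leaf : ℕ → List ℕ → Box → Option (List ℕ)} {P : (ℕ → ℝ) → Prop}
    (hleaf : ∀ t s B s', leaf t s B = some s' → Cert P B) :
    ∀ f s B s', run leaf f s B = some s' → Cert P B := by
  intro f
  induction f with
  | zero => intro s B s' h; cases h
  | succ f ih =>
    intro s B s' h
    cases s with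
    | nil => cases h
    | cons t s =>
      have e : run leaf (f + 1) (t :: s) B = (match Nat.ble 64 t with
        | true => leaf t s B
        | false => match halves t B with
          | (L, R) => match run leaf f s L with
            | none => none
            | some s' => run leaf f s' R) := rfl
      rw [e] at h
      cases hb : Nat.ble 64 t with
      | true => rw [hb] at h; exact hleaf t s B s' h
      | false =>
        rw [hb, halves_eq] at h
        simp only at h
        cases h1 : run leaf f s (cutHi (mid t B) t B) with
        | none => rw [h1] at h; cases h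
        | some s1 =>
          rw [h1] at h
          exact cert_cut (mid t B) t (ih _ _ _ h1) (ih _ _ _ h)

end Pool.Agent.Helper98.KT
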