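import Pool.Agent.Helper98.KT.Top

set_option autoImplicit false

/-! # Box trees with a state (sign table, choices) carried along the branch

`X` is the type of the real configurations, `z x k` the coordinate `k` of `x` in the integer unit of
the box, `SM x st` says that the configuration `x` satisfies the conditions recorded in the packed
state `st : ℕ`.
Tokens: `t < 64` splits coordinate `t` at the midpoint; `64 ≤ t < 128` is a two-way branch
`br t st = (st1, st2)`; `t ≥ 128` is a leaf token, given to `leaf` with the rest of the stream.
-/

namespace Pool.Agent.Helper98.KT

variable {X : Type*}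

lemma lt_of_ble {t : ℕ} (h : Nat.ble 128 t = false) : t < 128 := by
  by_contra hc
  have h2 : Nat.ble 128 t = true := Nat.ble_eq_true_of_le (not_lt.1 hc)
  rw [h] at h2
  cases h2

/-- certified box with state -/
def CertS (z : X → ℕ → ℝ) (SM : X → ℕ → Prop) (P : X → Prop) (st : ℕ) (B : Box) : Prop :=
  ∀ x, Mem (z x) B → SM x st → P x

lemma certS_cut {z : X → ℕ → ℝ} {SM : X → ℕ → Prop} {P : X → Prop} {st : ℕ} {B : Box} (c k : ℕ)
    (h1 : CertS z SM P st (cutHi c k B)) (h2 : CertS z SM P st (cutLo c k B)) :
    CertS z SM P st B := by
  intro x hx hs
  rcases le_total (z x k) (c : ℝ) with h | h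
  · exact h1 x (mem_cutHi hx h) hs
  · exact h2 x (mem_cutLo hx h) hs

lemma certS_br {z : X → ℕ → ℝ} {SM : X → ℕ → Prop} {P : X → Prop} {st a b : ℕ} {B : Box}
    (hb : ∀ x, SM x st → SM x a ∨ SM x b)
    (h1 : CertS z SM P a B) (h2 : CertS z SM P b B) : CertS z SM P st B := by
  intro x hx hs
  rcases hb x hs with h | h
  · exact h1 x hx h
  · exact h2 x hx h

lemma certS_sub {z : X → ℕ → ℝ} {SM : X → ℕ → Prop} {P : X → Prop} {st : ℕ} {B C : Box}
    (h : subB B C = true) (hC : CertS z SM P st C) : CertS z SM P st B :=
  fun x hx hs => hC x (mem_subB h hx) hs

/-- the runner with a state -/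
def runS (br : ℕ → ℕ → ℕ × ℕ) (leaf : ℕ → List ℕ → ℕ → Box → Option (List ℕ)) :
    ℕ → List ℕ → ℕ → Box → Option (List ℕ)
  | 0, _, _, _ => none
  | _ + 1, [], _, _ => none
  | f + 1, t :: s, st, B =>
      match Nat.ble 64 t with
      | false => match halves t B with
        | (L, R) => match runS br leaf f s st L with
          | none => none
          | some s' => runS br leaf f s' st R
      | true => match Nat.ble 128 t with
        | true => leaf t s st B
        | false => match br t st with
          | (a, b) => match runS br leaf f s a B with
            | none => none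
            | some s' => runS br leaf f s' b B

theorem runS_sound {br : ℕ → ℕ → ℕ × ℕ} {leaf : ℕ → List ℕ → ℕ → Box → Option (List ℕ)}
    {z : X → ℕ → ℝ} {SM : X → ℕ → Prop} {P : X → Prop}
    (hbr : ∀ t < 128, ∀ x st, SM x st → SM x (br t st).1 ∨ SM x (br t st).2)
    (hleaf : ∀ t s st B s', leaf t s st B = some s' → CertS z SM P st B) :
    ∀ f s st B s', runS br leaf f s st B = some s' → CertS z SM P st B := by
  intro f
  induction f with
  | zero => intro s st B s' h; cases h
  | succ f ih =>
    intro s st B s' h
    cases s with
    | nil => cases h
    | cons t s =>
      have e : runS br leaf (f + 1) (t :: s) st B = (match Nat.ble 64 t with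
        | false => match halves t B with
          | (L, R) => match runS br leaf f s st L with
            | none => none
            | some s' => runS br leaf f s' st R
        | true => match Nat.ble 128 t with
          | true => leaf t s st B
          | false => match br t st with
            | (a, b) => match runS br leaf f s a B with
              | none => none
              | some s' => runS br leaf f s' b B) := rfl
      rw [e] at h
      cases hb : Nat.ble 64 t with
      | false =>
        rw [hb, halves_eq] at h
        simp only at h
        cases h1 : runS br leaf f s st (cutHi (mid t B) t B) with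
        | none => rw [h1] at h; cases h
        | some s1 =>
          rw [h1] at h
          exact certS_cut (mid t B) t (ih _ _ _ _ h1) (ih _ _ _ _ h)
      | true =>
        rw [hb] at h
        simp only at h
        cases hb2 : Nat.ble 128 t with
        | true => rw [hb2] at h; exact hleaf t s st B s' h
        | false =>
          rw [hb2] at h
          simp only at h
          have hq := fun x => hbr t (lt_of_ble hb2) x st
          cases hq2 : br t st with
          | mk a b =>
            rw [hq2] at h hq
            simp only at h hq
            cases h1 : runS br leaf f s a B with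
            | none => rw [h1] at h; cases h
            | some s1 =>
              rw [h1] at h
              exact certS_br hq (ih _ _ _ _ h1) (ih _ _ _ _ h)

theorem runS_cert {br : ℕ → ℕ → ℕ × ℕ} {leaf : ℕ → List ℕ → ℕ → Box → Option (List ℕ)}
    {z : X → ℕ → ℝ} {SM : X → ℕ → Prop} {P : X → Prop}
    (hbr : ∀ t < 128, ∀ x st, SM x st → SM x (br t st).1 ∨ SM x (br t st).2)
    (hleaf : ∀ t s st B s', leaf t s st B = some s' → CertS z SM P st B)
    {f : ℕ} {s : List ℕ} {st : ℕ} {B : Box} (h : (runS br leaf f s st B).isSome = true) :
    CertS z SM P st B := by
  obtain ⟨r, hr⟩ := Option.isSome_iff_exists.1 h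
  exact runS_sound hbr hleaf f s st B r hr

/-- leaf of the assembly: same state, larger box -/
def topLS (s : List ℕ) (st : ℕ) : List (ℕ × Box) → Box → Option (List ℕ × List (ℕ × Box))
  | [], _ => none
  | C :: L', B => match and (Nat.beq st C.1) (subB B C.2) with
      | true => some (s, L')
      | false => none

/-- assembly of certified pairs (state, box): same tokens `t < 64` and `64 ≤ t < 128`; any token
`t ≥ 128` says that the current (state, box) is the next one of the list -/
def topS (br : ℕ → ℕ → ℕ × ℕ) :
    ℕ → List ℕ → List (ℕ × Box) → ℕ → Box → Option (List ℕ × List (ℕ × Box))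
  | 0, _, _, _, _ => none
  | _ + 1, [], _, _, _ => none
  | f + 1, t :: s, L, st, B =>
      match Nat.ble 64 t with
      | false => match halves t B with
        | (B1, B2) => match topS br f s L st B1 with
          | none => none
          | some (s', L') => topS br f s' L' st B2
      | true => match Nat.ble 128 t with
        | true => topLS s st L B
        | false => match br t st with
          | (a, b) => match topS br f s L a B with
            | none => none
            | some (s', L') => topS br f s' L' b B

theorem topS_sound {br : ℕ → ℕ → ℕ × ℕ} {z : X → ℕ → ℝ} {SM : X → ℕ → Prop} {P : X → Prop}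
    (hbr : ∀ t < 128, ∀ x st, SM x st → SM x (br t st).1 ∨ SM x (br t st).2) :
    ∀ f s L st B r, (∀ C ∈ L, CertS z SM P C.1 C.2) → topS br f s L st B = some r →
      CertS z SM P st B ∧ ∀ C ∈ r.2, CertS z SM P C.1 C.2 := by
  intro f
  induction f with
  | zero => intro s L st B r _ h; cases h
  | succ f ih =>
    intro s L st B r hL h
    cases s with
    | nil => cases h
    | cons t s =>
      have e : topS br (f + 1) (t :: s) L st B = (match Nat.ble 64 t with
        | false => match halves t B with
          | (B1, B2) => match topS br f s L st B1 with
            | none => none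
            | some (s', L') => topS br f s' L' st B2
        | true => match Nat.ble 128 t with
          | true => topLS s st L B
          | false => match br t st with
            | (a, b) => match topS br f s L a B with
              | none => none
              | some (s', L') => topS br f s' L' b B) := rfl
      rw [e] at h
      cases hb : Nat.ble 64 t with
      | false =>
        rw [hb, halves_eq] at h
        simp only at h
        cases h1 : topS br f s L st (cutHi (mid t B) t B) with
        | none => rw [h1] at h; cases h
        | some q =>
          rw [h1] at h
          obtain ⟨s', L'⟩ := q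
          simp only at h
          have h2 := ih _ _ _ _ _ hL h1
          have h3 := ih _ _ _ _ _ h2.2 h
          exact ⟨certS_cut (mid t B) t h2.1 h3.1, h3.2⟩
      | true =>
        rw [hb] at h
        simp only at h
        cases hb2 : Nat.ble 128 t with
        | true =>
          rw [hb2] at h
          simp only at h
          cases L with
          | nil => cases h
          | cons C L' =>
            have e2 : topLS s st (C :: L') B = (match and (Nat.beq st C.1) (subB B C.2) with
              | true => some (s, L')
              | false => none) := rfl
            rw [e2] at h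
            cases hs : and (Nat.beq st C.1) (subB B C.2) with
            | false => rw [hs] at h; cases h
            | true =>
              rw [hs] at h
              simp only [Option.some.injEq] at h
              subst h
              rw [Bool.and_eq_true] at hs
              have e3 : st = C.1 := Nat.eq_of_beq_eq_true hs.1
              refine ⟨?_, fun D hD => hL D (by simp [hD])⟩
              rw [e3]
              exact certS_sub hs.2 (hL C (by simp))
        | false =>
          rw [hb2] at h
          simp only at h
          have hq := fun x => hbr t (lt_of_ble hb2) x st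
          cases hq2 : br t st with
          | mk a b =>
            rw [hq2] at h hq
            simp only at h hq
            cases h1 : topS br f s L a B with
            | none => rw [h1] at h; cases h
            | some q =>
              rw [h1] at h
              obtain ⟨s', L'⟩ := q
              simp only at h
              have h2 := ih _ _ _ _ _ hL h1
              have h3 := ih _ _ _ _ _ h2.2 h
              exact ⟨certS_br hq h2.1 h3.1, h3.2⟩

/-- the form to be used -/
theorem topS_cert {br : ℕ → ℕ → ℕ × ℕ} {z : X → ℕ → ℝ} {SM : X → ℕ → Prop} {P : X → Prop}
    (hbr : ∀ t < 128, ∀ x st, SM x st → SM x (br t st).1 ∨ SM x (br t st).2)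
    {f : ℕ} {s : List ℕ} {L : List (ℕ × Box)} {st : ℕ} {B : Box}
    (hL : ∀ C ∈ L, CertS z SM P C.1 C.2) (h : (topS br f s L st B).isSome = true) :
    CertS z SM P st B := by
  obtain ⟨r, hr⟩ := Option.isSome_iff_exists.1 h
  exact (topS_sound hbr f s L st B r hL hr).1

/-- recording bit `2 p` (first alternative) or `2 p + 1` (second alternative), `p = t - 64` -/
def brBit (t st : ℕ) : ℕ × ℕ :=
  (Nat.lor st (Nat.shiftLeft 1 (Nat.mul 2 (Nat.sub t 64))),
   Nat.lor st (Nat.shiftLeft 1 (Nat.add (Nat.mul 2 (Nat.sub t 64)) 1)))

/-- meaning of the table of bits: alternative `A p false` if bit `2p` is set, `A p true` if bit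
`2p+1` is set -/
def SMBit (A : X → ℕ → Bool → Prop) (x : X) (st : ℕ) : Prop :=
  (∀ p, Nat.testBit st (2 * p) = true → A x p false) ∧
  (∀ p, Nat.testBit st (2 * p + 1) = true → A x p true)

lemma smBit_zero (A : X → ℕ → Bool → Prop) (x : X) : SMBit A x 0 := by
  constructor <;> intro p h <;> simp at h

theorem brBit_spec {A : X → ℕ → Bool → Prop} (hA : ∀ x p, p < 64 → A x p false ∨ A x p true)
    (t : ℕ) (ht : t < 128) (x : X) (st : ℕ) (h : SMBit A x st) :
    SMBit A x (brBit t st).1 ∨ SMBit A x (brBit t st).2 := by
  obtain ⟨h0, h1⟩ := h
  have key : ∀ n m : ℕ, Nat.testBit (Nat.lor st (Nat.shiftLeft 1 n)) m = true →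
      Nat.testBit st m = true ∨ m = n := by
    intro n m h
    have e : Nat.lor st (Nat.shiftLeft 1 n) = st ||| (1 <<< n) := rfl
    rw [e, Nat.testBit_or, Bool.or_eq_true] at h
    rcases h with h | h
    · exact Or.inl h
    · right
      rw [Nat.one_shiftLeft, Nat.testBit_two_pow] at h
      exact (by simpa using h : n = m).symm
  have e1 : (brBit t st).1 = Nat.lor st (Nat.shiftLeft 1 (2 * (t - 64))) := rfl
  have e2 : (brBit t st).2 = Nat.lor st (Nat.shiftLeft 1 (2 * (t - 64) + 1)) := rfl
  rcases hA x (t - 64) (by omega) with ha | ha
  · left
    rw [e1]
    refine ⟨fun p hp => ?_, fun p hp => ?_⟩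
    · rcases key _ _ hp with h | h
      · exact h0 p h
      · have : p = t - 64 := by omega
        rw [this]; exact ha
    · rcases key _ _ hp with h | h
      · exact h1 p h
      · omega
  · right
    rw [e2]
    refine ⟨fun p hp => ?_, fun p hp => ?_⟩
    · rcases key _ _ hp with h | h
      · exact h0 p h
      · omega
    · rcases key _ _ hp with h | h
      · exact h1 p h
      · have : p = t - 64 := by omega
        rw [this]; exact ha

end Pool.Agent.Helper98.KT
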