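import Mathlib

set_option autoImplicit false

/-! # Vertex principle for separately concave functions and the min-plus walk bound

`InB lo hi y`: the real point `y` lies in the box. `SepC lo hi F`: `F` is concave in every single
coordinate on the box. Then the minimum over the box is attained at a vertex. For a walk with edge
functions which dominate separately concave functions, the min-plus product of the 2x2 matrices of
corner bounds is a lower bound of the length of the walk.
-/

namespace Pool.Agent.Helper98.KT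

open Set

/-- the point is in the box -/
def InB (lo hi y : ℕ → ℝ) : Prop := ∀ k, lo k ≤ y k ∧ y k ≤ hi k

/-- separately concave on the box -/
def SepC (lo hi : ℕ → ℝ) (F : (ℕ → ℝ) → ℝ) : Prop :=
  ∀ y, InB lo hi y → ∀ k, ConcaveOn ℝ (Icc (lo k) (hi k)) (fun t => F (Function.update y k t))

lemma InB.update {lo hi y : ℕ → ℝ} (h : InB lo hi y) {k : ℕ} {t : ℝ} (ht : t ∈ Icc (lo k) (hi k)) :
    InB lo hi (Function.update y k t) := by
  intro j
  by_cases hj : j = k
  · subst hj; simpa using ht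
  · rw [Function.update_of_ne hj]; exact h j

lemma sepC_const (lo hi : ℕ → ℝ) (c : ℝ) : SepC lo hi (fun _ => c) :=
  fun _ _ k => concaveOn_const c (convex_Icc (lo k) (hi k))

lemma SepC.add {lo hi : ℕ → ℝ} {F G : (ℕ → ℝ) → ℝ} (hF : SepC lo hi F) (hG : SepC lo hi G) :
    SepC lo hi (fun y => F y + G y) :=
  fun y hy k => (hF y hy k).add (hG y hy k)

lemma sepC_pair {lo hi : ℕ → ℝ} {f : ℝ → ℝ → ℝ} {k l : ℕ} (hkl : k ≠ l)
    (h1 : ∀ b ∈ Icc (lo l) (hi l), ConcaveOn ℝ (Icc (lo k) (hi k)) (fun t => f t b))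
    (h2 : ∀ a ∈ Icc (lo k) (hi k), ConcaveOn ℝ (Icc (lo l) (hi l)) (fun t => f a t)) :
    SepC lo hi (fun y => f (y k) (y l)) := by
  intro y hy j
  by_cases hj : j = k
  · subst hj
    have e : (fun t => f (Function.update y j t j) (Function.update y j t l)) =
        fun t => f t (y l) := by
      funext t
      rw [Function.update_self, Function.update_of_ne hkl.symm]
    simpa only [e] using h1 (y l) (hy l)
  · by_cases hl : j = l
    · subst hl
      have e : (fun t => f (Function.update y j t k) (Function.update y j t j)) =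
          fun t => f (y k) t := by
        funext t
        rw [Function.update_self, Function.update_of_ne hkl]
      simpa only [e] using h2 (y k) (hy k)
    · have e : (fun t => f (Function.update y j t k) (Function.update y j t l)) =
          fun _ => f (y k) (y l) := by
        funext t
        rw [Function.update_of_ne (Ne.symm hj), Function.update_of_ne (Ne.symm hl)]
      simpa only [e] using concaveOn_const (f (y k) (y l)) (convex_Icc (lo j) (hi j))

/-- **Vertex principle.** -/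
theorem SepC.vertex {lo hi : ℕ → ℝ} {F : (ℕ → ℝ) → ℝ} (h : SepC lo hi F) {y : ℕ → ℝ}
    (hy : InB lo hi y) (n : ℕ) :
    ∃ c : ℕ → Bool, ∃ v : ℕ → ℝ, InB lo hi v ∧ (∀ k < n, v k = if c k then hi k else lo k) ∧
      F v ≤ F y := by
  induction n with
  | zero => exact ⟨fun _ => false, y, hy, fun k hk => absurd hk (Nat.not_lt_zero k), le_rfl⟩
  | succ n ih =>
    obtain ⟨c, v, hv, hc, hF⟩ := ih
    have hcon := h v hv n
    have hle : lo n ≤ hi n := (hv n).1.trans (hv n).2
    have hmin := hcon.min_le_of_mem_Icc (left_mem_Icc.2 hle) (right_mem_Icc.2 hle)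
      (hv n : v n ∈ Icc (lo n) (hi n))
    simp only [Function.update_eq_self] at hmin
    rcases min_le_iff.1 hmin with h1 | h1
    · refine ⟨fun k => if k = n then false else c k, Function.update v n (lo n),
        hv.update (left_mem_Icc.2 hle), fun k hk => ?_, h1.trans hF⟩
      by_cases hkn : k = n
      · subst hkn; simp
      · rw [Function.update_of_ne hkn, hc k (by omega)]
        simp [hkn]
    · refine ⟨fun k => if k = n then true else c k, Function.update v n (hi n),
        hv.update (right_mem_Icc.2 hle), fun k hk => ?_, h1.trans hF⟩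
      by_cases hkn : k = n
      · subst hkn; simp
      · rw [Function.update_of_ne hkn, hc k (by omega)]
        simp [hkn]

/-! ### walks -/

/-- length of a walk from node `k`: list of pairs (edge type, next node) -/
def wsum (f : ℕ → ℕ → ℕ → ℝ → ℝ → ℝ) (y : ℕ → ℝ) : ℕ → List (ℕ × ℕ) → ℝ
  | _, [] => 0
  | k, p :: w => f p.1 k p.2 (y k) (y p.2) + wsum f y p.2 w

/-- last node of a walk -/
def wlast : ℕ → List (ℕ × ℕ) → ℕ
  | k, [] => k
  | _, p :: w => wlast p.2 w

/-- minimum, in a form which the kernel evaluates well -/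
def mn (a b : ℕ) : ℕ := match Nat.ble a b with
  | true => a
  | false => b

lemma mn_le_left (a b : ℕ) : mn a b ≤ a := by
  unfold mn
  cases h : Nat.ble a b with
  | true => exact le_rfl
  | false =>
    have : ¬ a ≤ b := fun h2 => by rw [Nat.ble_eq_true_of_le h2] at h; cases h
    show b ≤ a
    omega

lemma mn_le_right (a b : ℕ) : mn a b ≤ b := by
  unfold mn
  cases h : Nat.ble a b with
  | true => exact Nat.le_of_ble_eq_true h
  | false => exact le_rfl

/-- `2 x 2` matrices of naturals -/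
structure M2 where
  (a b c d : ℕ)

/-- entry of a matrix: `false` = lower end -/
def M2.get (M : M2) (i j : Bool) : ℕ := match i, j with
  | false, false => M.a
  | false, true => M.b
  | true, false => M.c
  | true, true => M.d

/-- min-plus product -/
def mp (M N : M2) : M2 :=
  ⟨mn (Nat.add M.a N.a) (Nat.add M.b N.c), mn (Nat.add M.a N.b) (Nat.add M.b N.d),
   mn (Nat.add M.c N.a) (Nat.add M.d N.c), mn (Nat.add M.c N.b) (Nat.add M.d N.d)⟩

lemma mp_get (M N : M2) (i j k : Bool) : (mp M N).get i k ≤ M.get i j + N.get j k := by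
  cases i <;> cases j <;> cases k <;>
    simp only [mp, M2.get] <;> first | exact mn_le_left _ _ | exact mn_le_right _ _

/-- min-plus product along a walk -/
def wmp (ed : ℕ → ℕ → ℕ → M2) : ℕ → List (ℕ × ℕ) → M2 → M2
  | _, [], M => M
  | k, p :: w, M => wmp ed p.2 w (mp M (ed p.1 k p.2))

/-- sum of the entries for a choice of corners -/
def csum (ed : ℕ → ℕ → ℕ → M2) (c : ℕ → Bool) : ℕ → List (ℕ × ℕ) → ℕ
  | _, [] => 0
  | k, p :: w => (ed p.1 k p.2).get (c k) (c p.2) + csum ed c p.2 w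

lemma wmp_le (ed : ℕ → ℕ → ℕ → M2) (c : ℕ → Bool) (i : Bool) (w : List (ℕ × ℕ)) :
    ∀ (k : ℕ) (M : M2), (wmp ed k w M).get i (c (wlast k w)) ≤ M.get i (c k) + csum ed c k w := by
  induction w with
  | nil => intro k M; exact le_rfl
  | cons p w ih =>
    intro k M
    have h1 := ih p.2 (mp M (ed p.1 k p.2))
    have h2 := mp_get M (ed p.1 k p.2) i (c k) (c p.2)
    show (wmp ed p.2 w (mp M (ed p.1 k p.2))).get i (c (wlast p.2 w)) ≤
      M.get i (c k) + ((ed p.1 k p.2).get (c k) (c p.2) + csum ed c p.2 w)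
    omega

/-- an edge (of type `t`, from `k` to `l`) is correctly bounded by the matrix: its function
dominates a separately concave function whose corner values dominate the entries (`u` = the unit) -/
def EdgeOK (u : ℝ) (lo hi : ℕ → ℝ) (f : ℕ → ℕ → ℕ → ℝ → ℝ → ℝ) (ed : ℕ → ℕ → ℕ → M2)
    (t k l : ℕ) : Prop :=
  ∃ g : ℝ → ℝ → ℝ, SepC lo hi (fun y => g (y k) (y l)) ∧
    (∀ a ∈ Icc (lo k) (hi k), ∀ b ∈ Icc (lo l) (hi l), g a b ≤ f t k l a b) ∧
    ∀ i j : Bool, ((ed t k l).get i j : ℝ) * u ≤ g (if i then hi k else lo k) (if j then hi l else lo l)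

/-- constant lower bound -/
lemma edgeOK_const {u : ℝ} {lo hi : ℕ → ℝ} {f : ℕ → ℕ → ℕ → ℝ → ℝ → ℝ} {ed : ℕ → ℕ → ℕ → M2}
    {t k l : ℕ} (m : ℝ) (hm : ∀ a ∈ Icc (lo k) (hi k), ∀ b ∈ Icc (lo l) (hi l), m ≤ f t k l a b)
    (he : ∀ i j : Bool, ((ed t k l).get i j : ℝ) * u ≤ m) : EdgeOK u lo hi f ed t k l :=
  ⟨fun _ _ => m, sepC_const lo hi m, hm, he⟩

/-- separately concave edge function -/
lemma edgeOK_concave {u : ℝ} {lo hi : ℕ → ℝ} {f : ℕ → ℕ → ℕ → ℝ → ℝ → ℝ} {ed : ℕ → ℕ → ℕ → M2}
    {t k l : ℕ} (hkl : k ≠ l)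
    (h1 : ∀ b ∈ Icc (lo l) (hi l), ConcaveOn ℝ (Icc (lo k) (hi k)) (fun x => f t k l x b))
    (h2 : ∀ a ∈ Icc (lo k) (hi k), ConcaveOn ℝ (Icc (lo l) (hi l)) (fun x => f t k l a x))
    (he : ∀ i j : Bool, ((ed t k l).get i j : ℝ) * u ≤
      f t k l (if i then hi k else lo k) (if j then hi l else lo l)) : EdgeOK u lo hi f ed t k l :=
  ⟨f t k l, sepC_pair hkl h1 h2, fun _ _ _ _ => le_rfl, he⟩

/-- all edges of a walk satisfy a property -/
def WAll (Q : ℕ → ℕ → ℕ → Prop) : ℕ → List (ℕ × ℕ) → Prop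
  | _, [] => True
  | k, p :: w => Q p.1 k p.2 ∧ WAll Q p.2 w

/-- all nodes of a walk (without the first one) are `< n` -/
def WLt (n : ℕ) (w : List (ℕ × ℕ)) : Prop := ∀ p ∈ w, p.2 < n

lemma wsum_dom {u : ℝ} {lo hi : ℕ → ℝ} {f : ℕ → ℕ → ℕ → ℝ → ℝ → ℝ} {ed : ℕ → ℕ → ℕ → M2}
    {n : ℕ} (w : List (ℕ × ℕ)) : ∀ k, k < n → WLt n w → WAll (EdgeOK u lo hi f ed) k w →
    ∃ G : (ℕ → ℝ) → ℝ, SepC lo hi G ∧ (∀ y, InB lo hi y → G y ≤ wsum f y k w) ∧
      ∀ (c : ℕ → Bool) (v : ℕ → ℝ), (∀ j < n, v j = if c j then hi j else lo j) →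
        (csum ed c k w : ℝ) * u ≤ G v := by
  induction w with
  | nil =>
    intro k _ _ _
    exact ⟨fun _ => 0, sepC_const lo hi 0, fun y _ => le_rfl, fun c v _ => by simp [csum]⟩
  | cons p w ih =>
    intro k hk hlt hall
    have hp : p.2 < n := hlt p (by simp)
    obtain ⟨G, hG, hGle, hGc⟩ := ih p.2 hp (fun q hq => hlt q (by simp [hq])) hall.2
    obtain ⟨g, hg, hgle, hgc⟩ := hall.1
    refine ⟨fun y => g (y k) (y p.2) + G y, hg.add hG, fun y hy => ?_, fun c v hv => ?_⟩
    · exact add_le_add (hgle _ (hy k) _ (hy p.2)) (hGle y hy)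
    · have e1 := hgc (c k) (c p.2)
      have e2 := hGc c v hv
      rw [← hv k hk, ← hv p.2 hp] at e1
      have e3 : ((csum ed c k (p :: w) : ℕ) : ℝ) =
          ((ed p.1 k p.2).get (c k) (c p.2) : ℝ) + (csum ed c p.2 w : ℝ) := by
        simp [csum]
      rw [e3, add_mul]
      exact add_le_add e1 e2

/-- the unit matrix of the min-plus algebra (with `big` instead of infinity) -/
def one2 (big : ℕ) : M2 := ⟨0, big, big, 0⟩

/-- the bound of a closed walk -/
def wbound (big : ℕ) (ed : ℕ → ℕ → ℕ → M2) (k : ℕ) (w : List (ℕ × ℕ)) : ℕ :=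
  match wmp ed k w (one2 big) with
  | ⟨a, _, _, d⟩ => mn a d

/-- **Closed walks.** The min-plus bound is a lower bound of the length. -/
theorem wbound_le {u : ℝ} (hu : 0 ≤ u) {lo hi : ℕ → ℝ} {f : ℕ → ℕ → ℕ → ℝ → ℝ → ℝ}
    {ed : ℕ → ℕ → ℕ → M2} {n big : ℕ} {k : ℕ} {w : List (ℕ × ℕ)} (hk : k < n) (hlt : WLt n w)
    (hcl : wlast k w = k) (hall : WAll (EdgeOK u lo hi f ed) k w) {y : ℕ → ℝ}
    (hy : InB lo hi y) : (wbound big ed k w : ℝ) * u ≤ wsum f y k w := by
  obtain ⟨G, hG, hGle, hGc⟩ := wsum_dom w k hk hlt hall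
  obtain ⟨c, v, -, hc, hF⟩ := hG.vertex hy n
  have h1 := hGc c v hc
  have h2 : wbound big ed k w ≤ csum ed c k w := by
    have h3 := wmp_le ed c (c k) w k (one2 big)
    rw [hcl] at h3
    have h4 : (one2 big).get (c k) (c k) = 0 := by
      cases c k <;> rfl
    rw [h4, zero_add] at h3
    refine le_trans ?_ h3
    unfold wbound
    cases hM : wmp ed k w (one2 big) with
    | mk a b c' d =>
      cases c k
      · exact mn_le_left a d
      · exact mn_le_right a d
  have h5 : (wbound big ed k w : ℝ) * u ≤ (csum ed c k w : ℝ) * u :=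
    mul_le_mul_of_nonneg_right (by exact_mod_cast h2) hu
  exact h5.trans (h1.trans (hF.trans (hGle y hy)))

end Pool.Agent.Helper98.KT
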